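import Mathlib

set_option autoImplicit false

namespace Pool.Agent.Helper108.KN.Averages

open Finset

/-- iterated sums over shifts `0, …, U-1`. -/
def Av (U : ℕ) : ℕ → (ℤ → ℝ) → ℤ → ℝ
  | 0, f, x => f x
  | r + 1, f, x => ∑ u ∈ range U, Av U r f (x + (u : ℤ))

theorem Av_add (U r : ℕ) (f g : ℤ → ℝ) (x : ℤ) :
    Av U r (fun y => f y + g y) x = Av U r f x + Av U r g x := by
  induction r generalizing x with
  | zero => rfl
  | succ r ih => simp only [Av, ih, Finset.sum_add_distrib]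

theorem Av_mul (U r : ℕ) (c : ℝ) (f : ℤ → ℝ) (x : ℤ) :
    Av U r (fun y => c * f y) x = c * Av U r f x := by
  induction r generalizing x with
  | zero => rfl
  | succ r ih => simp only [Av, ih, Finset.mul_sum]

theorem Av_const (U r : ℕ) (c : ℝ) (x : ℤ) : Av U r (fun _ => c) x = (U : ℝ) ^ r * c := by
  induction r generalizing x with
  | zero => simp [Av]
  | succ r ih => simp only [Av, ih, Finset.sum_const, Finset.card_range, nsmul_eq_mul]; ring

theorem Av_sum {ι : Type*} (U r : ℕ) (s : Finset ι) (f : ι → ℤ → ℝ) (x : ℤ) :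
    Av U r (fun y => ∑ i ∈ s, f i y) x = ∑ i ∈ s, Av U r (f i) x := by
  classical
  induction s using Finset.induction_on with
  | empty =>
    simp only [Finset.sum_empty]
    rw [Av_const]; ring
  | insert a s ha ih =>
    simp only [Finset.sum_insert ha]
    rw [Av_add, ih]

theorem Av_mono (U r : ℕ) (f g : ℤ → ℝ) (x : ℤ)
    (h : ∀ y, x ≤ y → y ≤ x + r * U → f y ≤ g y) : Av U r f x ≤ Av U r g x := by
  induction r generalizing x with
  | zero => exact h x le_rfl (by simp)
  | succ r ih =>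
    simp only [Av]
    apply Finset.sum_le_sum
    intro u hu
    rw [Finset.mem_range] at hu
    apply ih
    intro y hy1 hy2
    apply h y
    · omega
    · have : (u : ℤ) < U := by exact_mod_cast hu
      push_cast
      nlinarith

/-- the sum over any full period vanishes. -/
theorem sum_period (m : ℕ) (f : ℤ → ℝ) (hf : ∀ x, f (x + m) = f x)
    (h0 : ∑ x ∈ range m, f (x : ℤ) = 0) (x : ℤ) : ∑ u ∈ range m, f (x + (u : ℤ)) = 0 := by
  have hstep : ∀ x : ℤ, ∑ u ∈ range m, f (x + 1 + (u : ℤ)) = ∑ u ∈ range m, f (x + (u : ℤ)) := by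
    intro x
    have h1 := Finset.sum_range_succ (fun u : ℕ => f (x + (u : ℤ))) m
    have h2 := Finset.sum_range_succ' (fun u : ℕ => f (x + (u : ℤ))) m
    have h4 : ∑ j ∈ range m, f (x + ((j + 1 : ℕ) : ℤ)) = ∑ j ∈ range m, f (x + 1 + (j : ℤ)) := by
      apply Finset.sum_congr rfl
      intro j _
      congr 1
      push_cast
      ring
    simp only [Nat.cast_zero, add_zero] at h2
    rw [h4] at h2
    rw [hf] at h1
    linarith
  induction x using Int.induction_on with
  | zero => simpa using h0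
  | succ i ih => rw [hstep, ih]
  | pred i ih =>
    have := hstep (-(i : ℤ) - 1)
    rw [sub_add_cancel, ih] at this
    exact this.symm

theorem sum_blocks (m s : ℕ) (f : ℤ → ℝ) (hf : ∀ x, f (x + m) = f x)
    (h0 : ∑ x ∈ range m, f (x : ℤ) = 0) (x : ℤ) : ∑ u ∈ range (m * s), f (x + (u : ℤ)) = 0 := by
  induction s with
  | zero => simp
  | succ s ih =>
    rw [Nat.mul_succ, Finset.sum_range_add, ih, zero_add]
    rw [← sum_period m f hf h0 (x + ((m * s : ℕ) : ℤ))]
    apply Finset.sum_congr rfl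
    intro u _
    congr 1
    push_cast
    ring

theorem sum_bound (m U : ℕ) (hm : 0 < m) (f : ℤ → ℝ) (C : ℝ) (hf : ∀ x, f (x + m) = f x)
    (h0 : ∑ x ∈ range m, f (x : ℤ) = 0) (hC : ∀ x, |f x| ≤ C) (x : ℤ) :
    |∑ u ∈ range U, f (x + (u : ℤ))| ≤ m * C := by
  have hU := Nat.div_add_mod U m
  have hlt := Nat.mod_lt U hm
  rw [← hU, Finset.sum_range_add, sum_blocks m _ f hf h0 x, zero_add]
  have hC0 : 0 ≤ C := (abs_nonneg _).trans (hC 0)
  calc |∑ u ∈ range (U % m), f (x + ((m * (U / m) + u : ℕ) : ℤ))|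
      ≤ ∑ u ∈ range (U % m), |f (x + ((m * (U / m) + u : ℕ) : ℤ))| := Finset.abs_sum_le_sum_abs _ _
    _ ≤ ∑ u ∈ range (U % m), C := Finset.sum_le_sum fun u _ => hC _
    _ = (U % m : ℕ) * C := by rw [Finset.sum_const, Finset.card_range, nsmul_eq_mul]
    _ ≤ m * C := mul_le_mul_of_nonneg_right (by exact_mod_cast hlt.le) hC0

theorem Av_periodic (m U r : ℕ) (f : ℤ → ℝ) (hf : ∀ x, f (x + m) = f x) (x : ℤ) :
    Av U r f (x + m) = Av U r f x := by
  induction r generalizing x with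
  | zero => exact hf x
  | succ r ih =>
    simp only [Av]
    apply Finset.sum_congr rfl
    intro u _
    rw [show x + (m : ℤ) + u = (x + u) + m by ring, ih]

theorem Av_period_sum (m U r : ℕ) (f : ℤ → ℝ) (hf : ∀ x, f (x + m) = f x)
    (h0 : ∑ x ∈ range m, f (x : ℤ) = 0) : ∑ x ∈ range m, Av U r f (x : ℤ) = 0 := by
  induction r with
  | zero => exact h0
  | succ r ih =>
    simp only [Av]
    rw [Finset.sum_comm]
    apply Finset.sum_eq_zero
    intro u _
    have := sum_period m (Av U r f) (Av_periodic m U r f hf) ih (u : ℤ)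
    rw [← this]
    apply Finset.sum_congr rfl
    intro x _
    rw [add_comm]

theorem Av_bound (m U r : ℕ) (hm : 0 < m) (f : ℤ → ℝ) (C : ℝ) (hf : ∀ x, f (x + m) = f x)
    (h0 : ∑ x ∈ range m, f (x : ℤ) = 0) (hC : ∀ x, |f x| ≤ C) (x : ℤ) :
    |Av U r f x| ≤ (m : ℝ) ^ r * C := by
  induction r generalizing x with
  | zero => simpa [Av] using hC x
  | succ r ih =>
    simp only [Av]
    have := sum_bound m U hm (Av U r f) _ (Av_periodic m U r f hf)
      (Av_period_sum m U r f hf h0) ih x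
    calc _ ≤ _ := this
      _ = _ := by ring

/-- normalised average. -/
noncomputable def E (U r : ℕ) (x : ℤ) (f : ℤ → ℝ) : ℝ := Av U r f x / (U : ℝ) ^ r

theorem E_add (U r : ℕ) (x : ℤ) (f g : ℤ → ℝ) :
    E U r x (fun y => f y + g y) = E U r x f + E U r x g := by
  unfold E; rw [Av_add, add_div]

theorem E_mul (U r : ℕ) (x : ℤ) (c : ℝ) (f : ℤ → ℝ) :
    E U r x (fun y => c * f y) = c * E U r x f := by
  unfold E; rw [Av_mul, mul_div_assoc]

theorem E_const (U r : ℕ) (hU : 0 < U) (x : ℤ) (c : ℝ) : E U r x (fun _ => c) = c := by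
  unfold E
  rw [Av_const]
  have : (U : ℝ) ^ r ≠ 0 := by positivity
  field_simp

theorem E_sum {ι : Type*} (U r : ℕ) (x : ℤ) (s : Finset ι) (f : ι → ℤ → ℝ) :
    E U r x (fun y => ∑ i ∈ s, f i y) = ∑ i ∈ s, E U r x (f i) := by
  unfold E; rw [Av_sum, Finset.sum_div]

theorem E_mono (U r : ℕ) (x : ℤ) (f g : ℤ → ℝ)
    (h : ∀ y, x ≤ y → y ≤ x + r * U → f y ≤ g y) : E U r x f ≤ E U r x g := by
  unfold E
  exact div_le_div_of_nonneg_right (Av_mono U r f g x h) (by positivity)

theorem E_bound (m M U r : ℕ) (hm : 0 < m) (hmM : m ≤ M) (hU : 0 < U) (f : ℤ → ℝ) (C : ℝ)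
    (hf : ∀ x, f (x + m) = f x) (h0 : ∑ x ∈ range m, f (x : ℤ) = 0) (hC : ∀ x, |f x| ≤ C)
    (x : ℤ) : |E U r x f| ≤ ((M : ℝ) / U) ^ r * C := by
  have h1 := Av_bound m U r hm f C hf h0 hC x
  have hC0 : 0 ≤ C := (abs_nonneg _).trans (hC 0)
  unfold E
  have hUr : (0 : ℝ) < (U : ℝ) ^ r := by positivity
  rw [abs_div, abs_of_pos hUr, div_pow, div_mul_eq_mul_div]
  apply div_le_div_of_nonneg_right _ hUr.le
  refine h1.trans ?_
  have : (m : ℝ) ^ r ≤ (M : ℝ) ^ r := by gcongr
  exact mul_le_mul_of_nonneg_right this hC0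

/-- averages of a periodic function are close to its mean. -/
theorem E_mean (m M U r : ℕ) (hm : 0 < m) (hmM : m ≤ M) (hU : 0 < U) (f : ℤ → ℝ)
    (hf : ∀ x, f (x + m) = f x) (hC : ∀ x, |f x| ≤ 1) (x : ℤ) :
    |E U r x f - (∑ y ∈ range m, f (y : ℤ)) / m| ≤ ((M : ℝ) / U) ^ r * 2 := by
  set μ := (∑ y ∈ range m, f (y : ℤ)) / m with hμ
  have hm' : (0 : ℝ) < m := by exact_mod_cast hm
  have hμ1 : |μ| ≤ 1 := by
    rw [hμ, abs_div, abs_of_pos hm', div_le_one hm']
    calc |∑ y ∈ range m, f (y : ℤ)| ≤ ∑ y ∈ range m, |f (y : ℤ)| := Finset.abs_sum_le_sum_abs _ _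
      _ ≤ ∑ y ∈ range m, (1 : ℝ) := Finset.sum_le_sum fun y _ => hC _
      _ = m := by simp
  have h1 := E_bound m M U r hm hmM hU (fun y => f y + (-μ)) 2
    (by intro x; simp only [hf]) (by
      rw [Finset.sum_add_distrib, Finset.sum_const, Finset.card_range, nsmul_eq_mul, hμ]
      field_simp
      ring) (by
      intro x
      calc |f x + -μ| ≤ |f x| + |(-μ)| := abs_add_le _ _
        _ ≤ 1 + 1 := by
          rw [abs_neg]
          exact add_le_add (hC x) hμ1
        _ = 2 := by norm_num) x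
  rw [E_add, E_const U r hU] at h1
  simpa [sub_eq_add_neg] using h1

/-- product of a mean zero periodic function with a function of coprime period. -/
theorem sum_coprime (a b : ℕ) (ha : 0 < a) (hb : 0 < b) (hab : Nat.Coprime a b) (f g : ℤ → ℝ)
    (hf : ∀ x, f (x + a) = f x) (hg : ∀ x, g (x + b) = g x)
    (h0 : ∑ x ∈ range a, f (x : ℤ) = 0) :
    ∑ x ∈ range (a * b), f (x : ℤ) * g (x : ℤ) = 0 := by
  have per : ∀ (c : ℕ) (h : ℤ → ℝ), (∀ x, h (x + c) = h x) → ∀ x : ℕ, h (x : ℤ) = h ((x % c : ℕ) : ℤ) := by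
    intro c h hh x
    have h1 : ∀ (t : ℕ) (y : ℤ), h (y + c * t) = h y := by
      intro t
      induction t with
      | zero => intro y; simp
      | succ t ih =>
        intro y
        rw [show y + (c : ℤ) * ((t + 1 : ℕ) : ℤ) = (y + c * t) + c by push_cast; ring, hh, ih]
    have h2 := h1 (x / c) ((x % c : ℕ) : ℤ)
    rw [← h2]
    congr 1
    exact_mod_cast (Nat.mod_add_div x c).symm
  have hbij : ∑ x ∈ range (a * b), f (x : ℤ) * g (x : ℤ) =
      ∑ uv ∈ range a ×ˢ range b, f ((uv.1 : ℕ) : ℤ) * g ((uv.2 : ℕ) : ℤ) := by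
    apply Finset.sum_bij' (fun x _ => (x % a, x % b))
      (fun uv _ => (Nat.chineseRemainder hab uv.1 uv.2 : ℕ))
    · intro x _
      rw [Finset.mem_product, Finset.mem_range, Finset.mem_range]
      exact ⟨Nat.mod_lt _ ha, Nat.mod_lt _ hb⟩
    · intro uv _
      rw [Finset.mem_range]
      exact Nat.chineseRemainder_lt_mul hab _ _ ha.ne' hb.ne'
    · intro x hx
      rw [Finset.mem_range] at hx
      have h1 := Nat.chineseRemainder_modEq_unique hab (a := x % a) (b := x % b) (z := x)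
        (Nat.mod_modEq x a).symm (Nat.mod_modEq x b).symm
      have h2 := Nat.chineseRemainder_lt_mul hab (x % a) (x % b) ha.ne' hb.ne'
      exact (Nat.ModEq.eq_of_lt_of_lt h1 hx h2).symm
    · intro uv huv
      rw [Finset.mem_product, Finset.mem_range, Finset.mem_range] at huv
      have h1 := (Nat.chineseRemainder hab uv.1 uv.2).2
      ext
      · exact Eq.trans h1.1 (Nat.mod_eq_of_lt huv.1)
      · exact Eq.trans h1.2 (Nat.mod_eq_of_lt huv.2)
    · intro x _
      rw [per a f hf x, per b g hg x]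
  rw [hbij, Finset.sum_product]
  simp only [← Finset.mul_sum, ← Finset.sum_mul, h0, zero_mul]

end Pool.Agent.Helper108.KN.Averages
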