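import Mathlib

set_option autoImplicit false

namespace Pool.Agent.Helper108.KN.FloorDiff

open Finset

/-- Hermite type identity. -/
theorem hermite (M : ℕ) (hM : 0 < M) (z : ℤ) :
    ∑ j ∈ range M, (z + (j : ℤ)) / (M : ℤ) = z := by
  have hM' : (M : ℤ) ≠ 0 := by exact_mod_cast hM.ne'
  have hstep : ∀ z : ℤ, ∑ j ∈ range M, (z + 1 + (j : ℤ)) / (M : ℤ) =
      ∑ j ∈ range M, (z + (j : ℤ)) / (M : ℤ) + 1 := by
    intro z
    have h1 := Finset.sum_range_succ (fun j : ℕ => (z + (j : ℤ)) / (M : ℤ)) M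
    have h2 := Finset.sum_range_succ' (fun j : ℕ => (z + (j : ℤ)) / (M : ℤ)) M
    have h3 : (z + (M : ℤ)) / (M : ℤ) = z / M + 1 := Int.add_ediv_of_dvd_right (dvd_refl _) |>.trans
      (by rw [Int.ediv_self hM'])
    have h4 : ∑ j ∈ range M, (z + ((j + 1 : ℕ) : ℤ)) / (M : ℤ) =
        ∑ j ∈ range M, (z + 1 + (j : ℤ)) / (M : ℤ) := by
      apply Finset.sum_congr rfl
      intro j _
      congr 1
      push_cast
      ring
    simp only [Nat.cast_zero, add_zero] at h2
    rw [h4] at h2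
    linarith
  have h0 : ∑ j ∈ range M, ((0 : ℤ) + (j : ℤ)) / (M : ℤ) = 0 := by
    apply Finset.sum_eq_zero
    intro j hj
    rw [Finset.mem_range] at hj
    rw [zero_add]
    exact Int.ediv_eq_zero_of_lt (by positivity) (by exact_mod_cast hj)
  induction z using Int.induction_on with
  | zero => exact h0
  | succ i ih => rw [hstep, ih]
  | pred i ih =>
    have := hstep (-(i : ℤ) - 1)
    rw [sub_add_cancel, ih] at this
    linarith

/-- the second difference of the floor function with step `k`. -/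
def D (k d : ℕ) (x : ℤ) : ℤ := (x + k) / d - 2 * (x / d) + (x - k) / d

theorem D_periodic (k d : ℕ) (hd : 0 < d) (x : ℤ) : D k d (x + d) = D k d x := by
  have hd' : (d : ℤ) ≠ 0 := by exact_mod_cast hd.ne'
  unfold D
  have h : ∀ y : ℤ, (y + d) / (d : ℤ) = y / d + 1 := fun y =>
    (Int.add_ediv_of_dvd_right (dvd_refl _)).trans (by rw [Int.ediv_self hd'])
  rw [show x + (d : ℤ) + k = (x + k) + d by ring, show x + (d : ℤ) - k = (x - k) + d by ring,
    h, h, h]
  ring

theorem D_sum (k d : ℕ) (hd : 0 < d) : ∑ x ∈ range d, D k d (x : ℤ) = 0 := by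
  unfold D
  rw [Finset.sum_add_distrib, Finset.sum_sub_distrib, ← Finset.mul_sum]
  have h1 : ∑ x ∈ range d, ((x : ℤ) + k) / (d : ℤ) = k := by
    refine Eq.trans ?_ (hermite d hd (k : ℤ))
    exact Finset.sum_congr rfl fun j _ => by rw [add_comm]
  have h2 : ∑ x ∈ range d, ((x : ℤ)) / (d : ℤ) = 0 := by
    have := hermite d hd 0
    simpa using this
  have h3 : ∑ x ∈ range d, ((x : ℤ) - k) / (d : ℤ) = -k := by
    refine Eq.trans ?_ (hermite d hd (-(k : ℤ)))
    exact Finset.sum_congr rfl fun j _ => by congr 1; ring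
  rw [h1, h2, h3]
  ring

theorem D_abs (k d : ℕ) (hd : 0 < d) (x : ℤ) : |D k d x| ≤ 1 := by
  have hd' : (0 : ℤ) < d := by exact_mod_cast hd
  unfold D
  -- write x = d * y + r, k = d * a + b
  have hx := Int.emod_add_mul_ediv x d
  have hk := Int.emod_add_mul_ediv (k : ℤ) d
  set r := x % (d : ℤ) with hr
  set y := x / (d : ℤ) with hy
  set b := (k : ℤ) % d with hb
  set a := (k : ℤ) / d with ha
  have hr0 : 0 ≤ r := Int.emod_nonneg _ hd'.ne'
  have hr1 : r < d := Int.emod_lt_of_pos _ hd'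
  have hb0 : 0 ≤ b := Int.emod_nonneg _ hd'.ne'
  have hb1 : b < d := Int.emod_lt_of_pos _ hd'
  have e1 : (x + k) / (d : ℤ) = (r + b) / d + (y + a) := by
    rw [← Int.add_mul_ediv_left _ _ hd'.ne']
    congr 1
    rw [← hx, ← hk]
    ring
  have e2 : (x - k) / (d : ℤ) = (r - b) / d + (y - a) := by
    rw [← Int.add_mul_ediv_left _ _ hd'.ne']
    congr 1
    rw [← hx, ← hk]
    ring
  rw [e1, e2]
  have f1 : 0 ≤ (r + b) / (d : ℤ) := Int.ediv_nonneg (by omega) hd'.le
  have f2 : (r + b) / (d : ℤ) < 2 := by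
    apply Int.ediv_lt_of_lt_mul hd'
    linarith
  have f3 : -1 ≤ (r - b) / (d : ℤ) := by
    apply Int.le_ediv_of_mul_le hd'
    linarith
  have f4 : (r - b) / (d : ℤ) < 1 := by
    apply Int.ediv_lt_of_lt_mul hd'
    linarith
  rw [abs_le]
  constructor <;> linarith

/-- fibre sum. -/
theorem D_fibre (k p M : ℕ) (hp : 0 < p) (hM : 0 < M) (r : ℤ) :
    ∑ j ∈ range M, D k (p * M) (r + p * j) = D k p r := by
  have hp' : (p : ℤ) ≠ 0 := by exact_mod_cast hp.ne'
  have key : ∀ c : ℤ, ∑ j ∈ range M, (c + p * (j : ℤ)) / ((p * M : ℕ) : ℤ) = c / p := by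
    intro c
    refine Eq.trans ?_ (hermite M hM (c / p))
    apply Finset.sum_congr rfl
    intro j _
    push_cast
    rw [← Int.ediv_ediv_of_nonneg (by positivity), Int.add_mul_ediv_left _ _ hp']
  unfold D
  rw [Finset.sum_add_distrib, Finset.sum_sub_distrib, ← Finset.mul_sum, ← key (r + k), ← key r,
    ← key (r - k)]
  congr 1
  · congr 1
    apply Finset.sum_congr rfl
    intro j _
    congr 1
    ring
  · apply Finset.sum_congr rfl
    intro j _
    congr 1
    ring

/-- lower bound for the mean square. -/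
theorem D_sq_sum (k p : ℕ) (hp : 0 < p) :
    ((min (k % p) (p - k % p) : ℕ) : ℤ) ≤ ∑ x ∈ range p, (D k p (x : ℤ)) ^ 2 := by
  set m := min (k % p) (p - k % p) with hm
  have hmp : m ≤ p := by omega
  have hval : ∀ x ∈ range m, (D k p (x : ℤ)) ^ 2 = 1 := by
    intro x hx
    rw [Finset.mem_range] at hx
    have hlt : k % p < p := Nat.mod_lt _ hp
    have h1 : x + k % p < p := by omega
    have h2 : x < k % p := by omega
    have hd' : (0 : ℤ) < p := by exact_mod_cast hp
    have hk : ((k % p : ℕ) : ℤ) + p * ((k / p : ℕ) : ℤ) = k := by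
      exact_mod_cast Nat.mod_add_div k p
    have e1 : ((x : ℤ) + k) / (p : ℤ) = ((k / p : ℕ) : ℤ) := by
      rw [← hk, ← add_assoc, Int.add_mul_ediv_left _ _ hd'.ne']
      rw [Int.ediv_eq_zero_of_lt (by positivity) (by exact_mod_cast h1)]
      ring
    have e2 : ((x : ℤ) - k) / (p : ℤ) = -1 - ((k / p : ℕ) : ℤ) := by
      have : ((x : ℤ) - k) = ((x : ℤ) - ((k % p : ℕ) : ℤ) + p) + p * (-1 - ((k / p : ℕ) : ℤ)) := by
        rw [← hk]
        push_cast
        ring
      rw [this, Int.add_mul_ediv_left _ _ hd'.ne', Int.ediv_eq_zero_of_lt]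
      · ring
      · have : ((k % p : ℕ) : ℤ) < p := by exact_mod_cast hlt
        omega
      · have : ((x : ℕ) : ℤ) < ((k % p : ℕ) : ℤ) := by exact_mod_cast h2
        omega
    have e3 : ((x : ℤ)) / (p : ℤ) = 0 :=
      Int.ediv_eq_zero_of_lt (by positivity) (by exact_mod_cast (by omega : x < p))
    unfold D
    rw [e1, e2, e3]
    ring
  calc ((m : ℕ) : ℤ) = ∑ x ∈ range m, (1 : ℤ) := by simp
    _ = ∑ x ∈ range m, (D k p (x : ℤ)) ^ 2 := (Finset.sum_congr rfl hval).symm
    _ ≤ ∑ x ∈ range p, (D k p (x : ℤ)) ^ 2 := by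
      apply Finset.sum_le_sum_of_subset_of_nonneg
      · intro x hx
        rw [Finset.mem_range] at *
        omega
      · intro x _ _
        positivity

end Pool.Agent.Helper108.KN.FloorDiff
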