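import Mathlib

set_option autoImplicit false

namespace Pool.Agent.Helper108.KN

/-- `blockLcm n k = L(n;k) = lcm(n+1, n+2, …, n+k)`. -/
def blockLcm (n k : ℕ) : ℕ := (Finset.Icc (n + 1) (n + k)).lcm id

/-- `kmax n = k(n)`: the largest integer `k` with `1 ≤ k < n` and `L(n;k) < L(n-k;k)`,
and `0` if there is no such `k`. -/
def kmax (n : ℕ) : ℕ :=
  ((Finset.range n).filter (fun k => 1 ≤ k ∧ blockLcm n k < blockLcm (n - k) k)).sup id

/-- Sanity check: every `k` in the defining range with the reversed comparison is `≤ k(n)`. -/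
theorem le_kmax {n k : ℕ} (h1 : 1 ≤ k) (h2 : k < n) (h3 : blockLcm n k < blockLcm (n - k) k) :
    k ≤ kmax n := by
  unfold kmax
  exact Finset.le_sup (f := id) (Finset.mem_filter.2 ⟨Finset.mem_range.2 h2, h1, h3⟩)

/-- Sanity check: if `k(n)` is not `0`, it is attained. -/
theorem kmax_spec {n : ℕ} (h : kmax n ≠ 0) :
    1 ≤ kmax n ∧ kmax n < n ∧ blockLcm n (kmax n) < blockLcm (n - kmax n) (kmax n) := by
  have hne : ((Finset.range n).filter
      (fun k => 1 ≤ k ∧ blockLcm n k < blockLcm (n - k) k)).Nonempty := by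
    rw [Finset.nonempty_iff_ne_empty]
    intro he
    apply h
    unfold kmax
    rw [he]
    rfl
  obtain ⟨k, hk, hk'⟩ := Finset.exists_mem_eq_sup _ hne (id : ℕ → ℕ)
  have hkk : kmax n = k := hk'
  rw [hkk]
  rw [Finset.mem_filter, Finset.mem_range] at hk
  exact ⟨hk.2.1, hk.1, hk.2.2⟩

end Pool.Agent.Helper108.KN
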