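import Mathlib
import Pool.Agent.Helper108.KN.Defs

set_option autoImplicit false

namespace Pool.Agent.Helper108.KN.LogLcm

open Finset
open ArithmeticFunction
open Pool.Agent.Helper108.KN

theorem primePow_dvd_lcm_iff {d a b : ℕ} (hd : IsPrimePow d) (ha : a ≠ 0) (hb : b ≠ 0) :
    d ∣ Nat.lcm a b ↔ d ∣ a ∨ d ∣ b := by
  obtain ⟨p, e, hp, he, rfl⟩ := (isPrimePow_nat_iff d).1 hd
  rw [hp.pow_dvd_iff_le_factorization (Nat.lcm_ne_zero ha hb),
    hp.pow_dvd_iff_le_factorization ha, hp.pow_dvd_iff_le_factorization hb,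
    Nat.factorization_lcm ha hb, Finsupp.sup_apply, le_sup_iff]

theorem lcm_ne_zero' {s : Finset ℕ} (hs : ∀ i ∈ s, i ≠ 0) : s.lcm id ≠ 0 := by
  rw [Ne, Finset.lcm_eq_zero_iff]
  rintro ⟨i, hi, h0⟩
  exact hs i hi h0

theorem primePow_dvd_finset_lcm_iff {d : ℕ} (hd : IsPrimePow d) {s : Finset ℕ}
    (hs : ∀ i ∈ s, i ≠ 0) : d ∣ s.lcm id ↔ ∃ i ∈ s, d ∣ i := by
  classical
  induction s using Finset.induction_on with
  | empty =>
    simp only [Finset.lcm_empty, Finset.notMem_empty, false_and, exists_false, iff_false]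
    intro h
    exact hd.one_lt.ne' (Nat.dvd_one.1 h)
  | insert a s ha ih =>
    have hs' : ∀ i ∈ s, i ≠ 0 := fun i hi => hs i (Finset.mem_insert_of_mem hi)
    rw [Finset.lcm_insert]
    have : d ∣ GCDMonoid.lcm (id a) (s.lcm id) ↔ d ∣ a ∨ d ∣ s.lcm id :=
      primePow_dvd_lcm_iff hd (hs a (Finset.mem_insert_self _ _)) (lcm_ne_zero' hs')
    rw [this, ih hs']
    simp

/-- number of multiples of `d` in the block. -/
theorem card_mult (a k d : ℕ) :
    ((Finset.Icc (a + 1) (a + k)).filter (fun i => d ∣ i)).card = (a + k) / d - a / d := by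
  have h1 := Nat.Ioc_filter_dvd_card_eq_div (a + k) d
  have h2 := Nat.Ioc_filter_dvd_card_eq_div a d
  have h3 : (Finset.Ioc 0 (a + k)).filter (fun i => d ∣ i) =
      ((Finset.Ioc 0 a).filter (fun i => d ∣ i)) ∪
        ((Finset.Icc (a + 1) (a + k)).filter (fun i => d ∣ i)) := by
    ext i
    simp only [Finset.mem_filter, Finset.mem_union, Finset.mem_Ioc, Finset.mem_Icc]
    constructor
    · rintro ⟨⟨h, h'⟩, h''⟩
      by_cases hi : i ≤ a
      · exact Or.inl ⟨⟨h, hi⟩, h''⟩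
      · exact Or.inr ⟨⟨by omega, h'⟩, h''⟩
    · rintro (⟨⟨h, h'⟩, h''⟩ | ⟨⟨h, h'⟩, h''⟩)
      · exact ⟨⟨h, by omega⟩, h''⟩
      · exact ⟨⟨by omega, h'⟩, h''⟩
  have h4 : Disjoint ((Finset.Ioc 0 a).filter (fun i => d ∣ i))
      ((Finset.Icc (a + 1) (a + k)).filter (fun i => d ∣ i)) := by
    rw [Finset.disjoint_left]
    intro i hi hi'
    simp only [Finset.mem_filter, Finset.mem_Ioc, Finset.mem_Icc] at hi hi'
    omega
  rw [h3, Finset.card_union_of_disjoint h4, h2] at h1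
  omega

theorem log_eq_sum (M i : ℕ) (hi : i ≠ 0) (hM : i ≤ M) :
    Real.log i = ∑ d ∈ Finset.Icc 1 M, if d ∣ i then vonMangoldt d else 0 := by
  rw [← vonMangoldt_sum, ← Finset.sum_filter]
  apply Finset.sum_congr _ (fun _ _ => rfl)
  ext d
  simp only [Nat.mem_divisors, Finset.mem_filter, Finset.mem_Icc]
  constructor
  · rintro ⟨h1, h2⟩
    exact ⟨⟨Nat.pos_of_dvd_of_pos h1 (Nat.pos_of_ne_zero hi),
      (Nat.le_of_dvd (Nat.pos_of_ne_zero hi) h1).trans hM⟩, h1⟩
  · rintro ⟨_, h2⟩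
    exact ⟨h2, hi⟩

theorem sum_log_block (a k : ℕ) :
    ∑ i ∈ Finset.Icc (a + 1) (a + k), Real.log i =
      ∑ d ∈ Finset.Icc 1 (a + k), vonMangoldt d * (((a + k) / d - a / d : ℕ) : ℝ) := by
  have h1 : ∀ i ∈ Finset.Icc (a + 1) (a + k), Real.log (i : ℝ) =
      ∑ d ∈ Finset.Icc 1 (a + k), if d ∣ i then vonMangoldt d else 0 := by
    intro i hi
    rw [Finset.mem_Icc] at hi
    exact log_eq_sum _ _ (by omega) hi.2
  rw [Finset.sum_congr rfl h1, Finset.sum_comm]
  apply Finset.sum_congr rfl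
  intro d _
  rw [← Finset.sum_filter, Finset.sum_const, card_mult, nsmul_eq_mul, mul_comm]

theorem log_blockLcm (a k : ℕ) :
    Real.log (blockLcm a k) =
      ∑ d ∈ Finset.Icc 1 (a + k), if 1 ≤ (a + k) / d - a / d then vonMangoldt d else 0 := by
  have hs : ∀ i ∈ Finset.Icc (a + 1) (a + k), i ≠ 0 := by
    intro i hi
    rw [Finset.mem_Icc] at hi
    omega
  have hL : blockLcm a k ≠ 0 := lcm_ne_zero' hs
  have hiff : ∀ d, IsPrimePow d → (d ∣ blockLcm a k ↔ 1 ≤ (a + k) / d - a / d) := by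
    intro d hd
    unfold blockLcm
    rw [primePow_dvd_finset_lcm_iff hd hs, ← card_mult, Nat.one_le_iff_ne_zero, Ne,
      Finset.card_eq_zero, Finset.filter_eq_empty_iff]
    push Not
    rfl
  rw [log_eq_sum (max (blockLcm a k) (a + k)) _ hL (le_max_left _ _)]
  symm
  apply Finset.sum_subset_zero_on_sdiff
  · intro d hd
    rw [Finset.mem_Icc] at *
    exact ⟨hd.1, hd.2.trans (le_max_right _ _)⟩
  · intro d hd
    rw [Finset.mem_sdiff, Finset.mem_Icc, Finset.mem_Icc] at hd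
    have hd' : a + k < d := by
      by_contra hcon
      exact hd.2 ⟨hd.1.1, by omega⟩
    by_cases hpp : IsPrimePow d
    · have hz : (a + k) / d - a / d = 0 := by
        rw [Nat.div_eq_of_lt hd']
        simp
      rw [if_neg]
      rw [hiff d hpp, hz]
      omega
    · have : vonMangoldt d = 0 := vonMangoldt_eq_zero_iff.2 hpp
      simp [this]
  · intro d _
    by_cases hpp : IsPrimePow d
    · simp only [hiff d hpp]
    · have : vonMangoldt d = 0 := vonMangoldt_eq_zero_iff.2 hpp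
      simp [this]

theorem div_sub_le_one {a k d : ℕ} (h : k < d) : (a + k) / d - a / d ≤ 1 := by
  have h2 : (a + k) / d ≤ (a + d) / d := Nat.div_le_div_right (by omega)
  rw [Nat.add_div_right a (by omega)] at h2
  omega

theorem one_le_div_sub {a k d : ℕ} (h0 : 1 ≤ d) (h : d ≤ k) : 1 ≤ (a + k) / d - a / d := by
  have h2 : (a + d) / d ≤ (a + k) / d := Nat.div_le_div_right (by omega)
  rw [Nat.add_div_right a (by omega)] at h2
  omega

/-- log of product minus log of lcm. -/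
theorem log_prod_sub (a k : ℕ) :
    ∑ i ∈ Finset.Icc (a + 1) (a + k), Real.log i - Real.log (blockLcm a k) =
      ∑ d ∈ Finset.Icc 1 k, vonMangoldt d * ((((a + k) / d : ℕ) : ℝ) - ((a / d : ℕ) : ℝ) - 1) := by
  rw [sum_log_block, log_blockLcm, ← Finset.sum_sub_distrib]
  symm
  apply Finset.sum_subset_zero_on_sdiff
  · intro d hd
    rw [Finset.mem_Icc] at *
    exact ⟨hd.1, by omega⟩
  · intro d hd
    rw [Finset.mem_sdiff, Finset.mem_Icc, Finset.mem_Icc] at hd
    have hd' : k < d := by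
      by_contra hcon
      exact hd.2 ⟨hd.1.1, by omega⟩
    have h1 := div_sub_le_one (a := a) hd'
    have : (a + k) / d - a / d = 0 ∨ (a + k) / d - a / d = 1 := by omega
    rcases this with h | h <;> simp [h]
  · intro d hd
    rw [Finset.mem_Icc] at hd
    have h1 := one_le_div_sub (a := a) hd.1 hd.2
    rw [if_pos h1, Nat.cast_sub (Nat.div_le_div_right (by omega))]
    ring

end Pool.Agent.Helper108.KN.LogLcm
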