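import Mathlib
import Pool.Agent.Helper108.KN.LogLcm
import Pool.Agent.Helper108.KN.FloorDiff
import Pool.Agent.Helper108.KN.Averages

set_option autoImplicit false

namespace Pool.Agent.Helper108.KN.Corr

open Finset ArithmeticFunction
open Pool.Agent.Helper108.KN.LogLcm Pool.Agent.Helper108.KN.FloorDiff Pool.Agent.Helper108.KN.Averages

/-- real version of `D`. -/
noncomputable def Dr (k d : ℕ) (x : ℤ) : ℝ := (D k d x : ℝ)

theorem Dr_periodic (k d : ℕ) (hd : 0 < d) (x : ℤ) : Dr k d (x + d) = Dr k d x := by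
  unfold Dr; rw [D_periodic k d hd]

theorem Dr_periodic_mul (k d e : ℕ) (hd : 0 < d) (x : ℤ) :
    Dr k d (x + ((d * e : ℕ) : ℤ)) = Dr k d x := by
  induction e generalizing x with
  | zero => simp
  | succ e ih =>
    rw [show x + ((d * (e + 1) : ℕ) : ℤ) = (x + ((d * e : ℕ) : ℤ)) + d by push_cast; ring,
      Dr_periodic k d hd, ih]

theorem Dr_periodic_dvd (k d m : ℕ) (hd : 0 < d) (h : d ∣ m) (x : ℤ) :
    Dr k d (x + (m : ℤ)) = Dr k d x := by
  obtain ⟨e, rfl⟩ := h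
  exact Dr_periodic_mul k d e hd x

theorem Dr_sum (k d : ℕ) (hd : 0 < d) : ∑ x ∈ range d, Dr k d (x : ℤ) = 0 := by
  unfold Dr; exact_mod_cast D_sum k d hd

theorem Dr_abs (k d : ℕ) (hd : 0 < d) (x : ℤ) : |Dr k d x| ≤ 1 := by
  unfold Dr; exact_mod_cast D_abs k d hd x

theorem abs_mul_le_one {a b : ℝ} (ha : |a| ≤ 1) (hb : |b| ≤ 1) : |a * b| ≤ 1 := by
  rw [abs_mul]
  exact mul_le_one₀ ha (abs_nonneg _) hb

theorem sum_range_mul' (p M : ℕ) (F : ℕ → ℝ) :
    ∑ x ∈ range (p * M), F x = ∑ j ∈ range M, ∑ r ∈ range p, F (p * j + r) := by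
  induction M with
  | zero => simp
  | succ M ih => rw [Nat.mul_succ, Finset.sum_range_add, ih, Finset.sum_range_succ]

theorem corr_nonneg (k p M : ℕ) (hp : 0 < p) (hM : 0 < M) :
    0 ≤ ∑ x ∈ range (p * M), Dr k (p * M) (x : ℤ) * Dr k p (x : ℤ) := by
  rw [sum_range_mul', Finset.sum_comm]
  apply Finset.sum_nonneg
  intro r _
  have h1 : ∀ j ∈ range M, Dr k (p * M) ((p * j + r : ℕ) : ℤ) * Dr k p ((p * j + r : ℕ) : ℤ) =
      Dr k (p * M) ((r : ℤ) + p * (j : ℤ)) * Dr k p (r : ℤ) := by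
    intro j _
    congr 1
    · congr 1
      push_cast
      ring
    · rw [← Dr_periodic_mul k p j hp (r : ℤ)]
      congr 1
      push_cast
      ring
  rw [Finset.sum_congr rfl h1, ← Finset.sum_mul]
  have h2 : ∑ j ∈ range M, Dr k (p * M) ((r : ℤ) + p * (j : ℤ)) = Dr k p (r : ℤ) := by
    unfold Dr
    exact_mod_cast D_fibre k p M hp hM (r : ℤ)
  rw [h2]
  exact mul_self_nonneg _

section core

variable (k Q U r : ℕ) (x0 : ℤ)

/-- error size -/
noncomputable def eta : ℝ := (((16 * k * Q ^ 2 : ℕ) : ℝ) / U) ^ r * 2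

theorem eta_nonneg : 0 ≤ eta k Q U r := by unfold eta; positivity

theorem pow_le_eta : (((16 * k * Q ^ 2 : ℕ) : ℝ) / U) ^ r * 1 ≤ eta k Q U r := by
  unfold eta
  have : 0 ≤ (((16 * k * Q ^ 2 : ℕ) : ℝ) / U) ^ r := by positivity
  linarith

theorem T1 (hU : 0 < U) (hQ : 0 < Q) (d : ℕ) (hd : 0 < d) (hdk : d ≤ k) :
    |E U r x0 (Dr k d)| ≤ eta k Q U r := by
  refine le_trans ?_ (pow_le_eta k Q U r)
  apply E_bound d (16 * k * Q ^ 2) U r hd _ hU (Dr k d) 1 (Dr_periodic k d hd) (Dr_sum k d hd)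
    (Dr_abs k d hd)
  have : 1 ≤ Q ^ 2 := Nat.one_le_pow _ _ hQ
  nlinarith

theorem T2 (hU : 0 < U) (hQ : 0 < Q) (d : ℕ) (hd : 0 < d) (hdk : d ≤ k) (p : ℕ) (hp : 0 < p)
    (hpQ : p ≤ 4 * Q) (hco : Nat.Coprime d p) :
    |E U r x0 (fun x => Dr k d x * Dr k p x)| ≤ eta k Q U r := by
  refine le_trans ?_ (pow_le_eta k Q U r)
  apply E_bound (d * p) (16 * k * Q ^ 2) U r (Nat.mul_pos hd hp) _ hU _ 1
  · intro x
    rw [Dr_periodic_dvd k d _ hd (Dvd.intro _ rfl), Dr_periodic_dvd k p _ hp (Dvd.intro_left _ rfl)]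
  · exact sum_coprime d p hd hp hco _ _ (Dr_periodic k d hd) (Dr_periodic k p hp) (Dr_sum k d hd)
  · intro x
    exact abs_mul_le_one (Dr_abs k d hd x) (Dr_abs k p hp x)
  · calc d * p ≤ k * (4 * Q) := Nat.mul_le_mul hdk hpQ
      _ ≤ 16 * k * Q ^ 2 := by nlinarith [Nat.zero_le k, Nat.mul_le_mul_left (4 * k * Q) hQ]

theorem T3a (hU : 0 < U) (d : ℕ) (hd : 0 < d) (hdk : d ≤ k) (p p' : ℕ) (hp : 0 < p)
    (hpQ : p ≤ 4 * Q) (hp' : 0 < p') (hpQ' : p' ≤ 4 * Q) (hco : Nat.Coprime d (p * p')) :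
    |E U r x0 (fun x => Dr k d x * (Dr k p x * Dr k p' x))| ≤ eta k Q U r := by
  refine le_trans ?_ (pow_le_eta k Q U r)
  have hpp : 0 < p * p' := Nat.mul_pos hp hp'
  apply E_bound (d * (p * p')) (16 * k * Q ^ 2) U r (Nat.mul_pos hd hpp) _ hU _ 1
  · intro x
    rw [Dr_periodic_dvd k d _ hd (Dvd.intro _ rfl),
      Dr_periodic_dvd k p _ hp ((Dvd.intro _ rfl : p ∣ p * p').trans (Dvd.intro_left _ rfl)),
      Dr_periodic_dvd k p' _ hp' ((Dvd.intro_left _ rfl : p' ∣ p * p').trans (Dvd.intro_left _ rfl))]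
  · exact sum_coprime d (p * p') hd hpp hco (Dr k d) (fun x => Dr k p x * Dr k p' x)
      (Dr_periodic k d hd)
      (fun x => by
        rw [Dr_periodic_dvd k p _ hp (Dvd.intro _ rfl), Dr_periodic_dvd k p' _ hp'
          (Dvd.intro_left _ rfl)]) (Dr_sum k d hd)
  · intro x
    exact abs_mul_le_one (Dr_abs k d hd x) (abs_mul_le_one (Dr_abs k p hp x) (Dr_abs k p' hp' x))
  · calc d * (p * p') ≤ k * ((4 * Q) * (4 * Q)) := Nat.mul_le_mul hdk (Nat.mul_le_mul hpQ hpQ')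
      _ = 16 * k * Q ^ 2 := by ring

theorem T3b (hU : 0 < U) (d : ℕ) (hd : 0 < d) (hdk : d ≤ k) (p p' : ℕ) (hp : 0 < p)
    (hpQ : p ≤ 4 * Q) (hp' : 0 < p') (hpQ' : p' ≤ 4 * Q) (hco : Nat.Coprime p' (d * p)) :
    |E U r x0 (fun x => Dr k d x * (Dr k p x * Dr k p' x))| ≤ eta k Q U r := by
  refine le_trans ?_ (pow_le_eta k Q U r)
  have hdp : 0 < d * p := Nat.mul_pos hd hp
  have hfun : (fun x => Dr k d x * (Dr k p x * Dr k p' x)) =
      (fun x => Dr k p' x * (Dr k d x * Dr k p x)) := by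
    funext x; ring
  rw [hfun]
  apply E_bound (p' * (d * p)) (16 * k * Q ^ 2) U r (Nat.mul_pos hp' hdp) _ hU _ 1
  · intro x
    rw [Dr_periodic_dvd k p' _ hp' (Dvd.intro _ rfl),
      Dr_periodic_dvd k d _ hd ((Dvd.intro _ rfl : d ∣ d * p).trans (Dvd.intro_left _ rfl)),
      Dr_periodic_dvd k p _ hp ((Dvd.intro_left _ rfl : p ∣ d * p).trans (Dvd.intro_left _ rfl))]
  · exact sum_coprime p' (d * p) hp' hdp hco (Dr k p') (fun x => Dr k d x * Dr k p x)
      (Dr_periodic k p' hp')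
      (fun x => by
        rw [Dr_periodic_dvd k d _ hd (Dvd.intro _ rfl), Dr_periodic_dvd k p _ hp
          (Dvd.intro_left _ rfl)]) (Dr_sum k p' hp')
  · intro x
    exact abs_mul_le_one (Dr_abs k p' hp' x) (abs_mul_le_one (Dr_abs k d hd x) (Dr_abs k p hp x))
  · calc p' * (d * p) ≤ (4 * Q) * (k * (4 * Q)) := Nat.mul_le_mul hpQ' (Nat.mul_le_mul hdk hpQ)
      _ = 16 * k * Q ^ 2 := by ring

theorem E_abs_le_one (hU : 0 < U) (f : ℤ → ℝ) (hf : ∀ x, |f x| ≤ 1) : |E U r x0 f| ≤ 1 := by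
  rw [abs_le]
  constructor
  · have := E_mono U r x0 (fun _ => (-1 : ℝ)) f (fun y _ _ => (abs_le.1 (hf y)).1)
    rwa [E_const U r hU] at this
  · have := E_mono U r x0 f (fun _ => (1 : ℝ)) (fun y _ _ => (abs_le.1 (hf y)).2)
    rwa [E_const U r hU] at this

/-- triple correlations, `d` a prime power. -/
theorem T3 (hU : 0 < U) (d : ℕ) (hd : 0 < d) (hpp : IsPrimePow d) (hdk : d ≤ k) (p p' : ℕ)
    (hp : p.Prime) (hpQ : p ≤ 4 * Q) (hp' : p'.Prime) (hpQ' : p' ≤ 4 * Q) :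
    -eta k Q U r - (if p = p' ∧ p ∣ d then 1 else 0) ≤
      E U r x0 (fun x => Dr k d x * (Dr k p x * Dr k p' x)) := by
  have h0 := eta_nonneg k Q U r
  by_cases hcase : p = p' ∧ p ∣ d
  · rw [if_pos hcase]
    have := E_abs_le_one U r x0 hU (fun x => Dr k d x * (Dr k p x * Dr k p' x)) (fun x =>
      abs_mul_le_one (Dr_abs k d hd x)
        (abs_mul_le_one (Dr_abs k p hp.pos x) (Dr_abs k p' hp'.pos x)))
    have := (abs_le.1 this).1
    linarith
  · rw [if_neg hcase, sub_zero]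
    have hcopr : |E U r x0 (fun x => Dr k d x * (Dr k p x * Dr k p' x))| ≤ eta k Q U r := by
      by_cases h1 : p ∣ d
      · -- then p ≠ p', d = p^a
        have hne : p ≠ p' := fun h => hcase ⟨h, h1⟩
        have h2 : ¬ p' ∣ d := by
          intro h2
          obtain ⟨q, a, hq, ha, rfl⟩ := (isPrimePow_nat_iff d).1 hpp
          have e1 := (Nat.prime_dvd_prime_iff_eq hp hq).1 (hp.dvd_of_dvd_pow h1)
          have e2 := (Nat.prime_dvd_prime_iff_eq hp' hq).1 (hp'.dvd_of_dvd_pow h2)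
          exact hne (e1.trans e2.symm)
        have hco : Nat.Coprime p' (d * p) := by
          rw [Nat.coprime_mul_iff_right]
          exact ⟨(Nat.Prime.coprime_iff_not_dvd hp').2 h2, (Nat.coprime_primes hp' hp).2 hne.symm⟩
        exact T3b k Q U r x0 hU d hd hdk p p' hp.pos hpQ hp'.pos hpQ' hco
      · by_cases h2 : p' ∣ d
        · have hne : p ≠ p' := fun h => h1 (h ▸ h2)
          have hco : Nat.Coprime p (d * p') := by
            rw [Nat.coprime_mul_iff_right]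
            exact ⟨(Nat.Prime.coprime_iff_not_dvd hp).2 h1, (Nat.coprime_primes hp hp').2 hne⟩
          have := T3b k Q U r x0 hU d hd hdk p' p hp'.pos hpQ' hp.pos hpQ hco
          have hfun : (fun x => Dr k d x * (Dr k p x * Dr k p' x)) =
              (fun x => Dr k d x * (Dr k p' x * Dr k p x)) := by
            funext x; ring
          rwa [hfun]
        · have hco : Nat.Coprime d (p * p') := by
            rw [Nat.coprime_mul_iff_right]
            exact ⟨((Nat.Prime.coprime_iff_not_dvd hp).2 h1).symm,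
              ((Nat.Prime.coprime_iff_not_dvd hp').2 h2).symm⟩
          exact T3a k Q U r x0 hU d hd hdk p p' hp.pos hpQ hp'.pos hpQ' hco
    exact (abs_le.1 hcopr).1

/-- double correlations, `d` a prime power. -/
theorem T2full (hU : 0 < U) (hQ : 0 < Q) (d : ℕ) (hd : 0 < d) (hpp : IsPrimePow d) (hdk : d ≤ k)
    (p : ℕ) (hp : p.Prime) (hpQ : p ≤ 4 * Q) (hmin : p ≤ 16 * min (k % p) (p - k % p)) :
    -eta k Q U r + (if d = p then 1 / 16 else 0) ≤
      E U r x0 (fun x => Dr k d x * Dr k p x) := by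
  have h0 := eta_nonneg k Q U r
  have hdM : d ≤ 16 * k * Q ^ 2 := by
    have : 1 ≤ Q ^ 2 := Nat.one_le_pow _ _ hQ
    nlinarith
  by_cases h1 : p ∣ d
  · obtain ⟨M, hM⟩ := h1
    have hM0 : 0 < M := by
      rcases Nat.eq_zero_or_pos M with h | h
      · rw [h, mul_zero] at hM; omega
      · exact h
    have hmean := E_mean d (16 * k * Q ^ 2) U r hd hdM hU (fun x => Dr k d x * Dr k p x)
      (fun x => by
        rw [Dr_periodic k d hd, Dr_periodic_dvd k p _ hp.pos (hM ▸ Dvd.intro _ rfl)])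
      (fun x => abs_mul_le_one (Dr_abs k d hd x) (Dr_abs k p hp.pos x)) x0
    have hlow := (abs_le.1 hmean).1
    have heta : (((16 * k * Q ^ 2 : ℕ) : ℝ) / U) ^ r * 2 = eta k Q U r := rfl
    rw [heta] at hlow
    by_cases hdp : d = p
    · rw [if_pos hdp]
      subst hdp
      have hsq : (1 : ℝ) / 16 ≤ (∑ y ∈ range d, Dr k d (y : ℤ) * Dr k d (y : ℤ)) / d := by
        rw [le_div_iff₀ (by exact_mod_cast hd)]
        have h2 := D_sq_sum k d hd
        have h3 : ((min (k % d) (d - k % d) : ℕ) : ℝ) ≤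
            ∑ y ∈ range d, Dr k d (y : ℤ) * Dr k d (y : ℤ) := by
          have h4 : ∑ y ∈ range d, Dr k d (y : ℤ) * Dr k d (y : ℤ) =
              ((∑ x ∈ range d, (D k d (x : ℤ)) ^ 2 : ℤ) : ℝ) := by
            unfold Dr
            push_cast
            apply Finset.sum_congr rfl
            intro y _
            ring
          rw [h4]
          have h5 := (Int.cast_le (R := ℝ)).2 h2
          rwa [Int.cast_natCast] at h5
        have h5 : (d : ℝ) ≤ 16 * ((min (k % d) (d - k % d) : ℕ) : ℝ) := by exact_mod_cast hmin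
        linarith
      linarith
    · rw [if_neg hdp, add_zero]
      have hnn : 0 ≤ (∑ y ∈ range d, Dr k d (y : ℤ) * Dr k p (y : ℤ)) / d := by
        apply div_nonneg _ (by positivity)
        rw [hM]
        exact corr_nonneg k p M hp.pos hM0
      linarith
  · have hne : d ≠ p := fun h => h1 (h ▸ dvd_rfl)
    rw [if_neg hne, add_zero]
    exact (abs_le.1 (T2 k Q U r x0 hU hQ d hd hdk p hp.pos hpQ
      ((Nat.Prime.coprime_iff_not_dvd hp).2 h1).symm)).1

/-- sum of `Λ` over multiples of a prime. -/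
theorem sum_vonMangoldt_mult (p : ℕ) (hp : p.Prime) (hk : 0 < k) :
    ∑ d ∈ Icc 1 k, (if p ∣ d then vonMangoldt d else 0) ≤ Real.log k := by
  rw [← Finset.sum_filter]
  have h1 : ∑ d ∈ (Icc 1 k).filter (fun d => p ∣ d), vonMangoldt d ≤
      ∑ d ∈ (p ^ (Nat.log p k)).divisors, vonMangoldt d := by
    have h2 : ∑ d ∈ (Icc 1 k).filter (fun d => p ∣ d), vonMangoldt d =
        ∑ d ∈ ((Icc 1 k).filter (fun d => p ∣ d)).filter (fun d => IsPrimePow d),
          vonMangoldt d := by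
      symm
      apply Finset.sum_filter_of_ne
      intro d _ h
      exact vonMangoldt_ne_zero_iff.1 h
    rw [h2]
    apply Finset.sum_le_sum_of_subset_of_nonneg
    · intro d hd
      rw [Finset.mem_filter, Finset.mem_filter, Finset.mem_Icc] at hd
      obtain ⟨⟨⟨hd1, hdk⟩, hpd⟩, hpp⟩ := hd
      obtain ⟨q, a, hq, ha, rfl⟩ := (isPrimePow_nat_iff d).1 hpp
      have e1 := (Nat.prime_dvd_prime_iff_eq hp hq).1 (hp.dvd_of_dvd_pow hpd)
      subst e1
      rw [Nat.mem_divisors]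
      refine ⟨pow_dvd_pow _ ?_, pow_ne_zero _ hp.ne_zero⟩
      exact Nat.le_log_of_pow_le hp.one_lt hdk
    · intro d _ _
      exact vonMangoldt_nonneg
  refine h1.trans ?_
  rw [vonMangoldt_sum]
  apply Real.log_le_log
  · exact_mod_cast pow_pos hp.pos _
  · exact_mod_cast Nat.pow_log_le_self p hk.ne'

theorem sum_vonMangoldt_le : ∑ d ∈ Icc 1 k, vonMangoldt d ≤ (k : ℝ) * k := by
  calc ∑ d ∈ Icc 1 k, vonMangoldt d ≤ ∑ d ∈ Icc 1 k, (k : ℝ) := by
        apply Finset.sum_le_sum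
        intro d hd
        rw [Finset.mem_Icc] at hd
        calc vonMangoldt d ≤ Real.log d := vonMangoldt_le_log
          _ ≤ d := (Real.log_le_self (by positivity))
          _ ≤ k := by exact_mod_cast hd.2
    _ = (k : ℝ) * k := by
      rw [Finset.sum_const, Nat.card_Icc, nsmul_eq_mul]
      simp

end core

end Pool.Agent.Helper108.KN.Corr
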