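import Mathlib
import Pool.Agent.Helper108.KN.Corr

set_option autoImplicit false

namespace Pool.Agent.Helper108.KN.Core

open Finset ArithmeticFunction
open Pool.Agent.Helper108.KN.LogLcm Pool.Agent.Helper108.KN.FloorDiff Pool.Agent.Helper108.KN.Averages
open Pool.Agent.Helper108.KN.Corr

variable (k Q U r : ℕ) (x0 : ℤ)

theorem expand (s P : Finset ℕ) (lam : ℝ) (y : ℤ) :
    (∑ d ∈ s, vonMangoldt d * Dr k d y) * (∑ p ∈ P, Dr k p y + lam) ^ 2 =
      ∑ d ∈ s, vonMangoldt d * ((∑ p ∈ P, ∑ p' ∈ P, Dr k d y * (Dr k p y * Dr k p' y)) +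
        ((2 * lam) * (∑ p ∈ P, Dr k d y * Dr k p y) + lam ^ 2 * Dr k d y)) := by
  rw [Finset.sum_mul]
  apply Finset.sum_congr rfl
  intro d _
  rw [mul_assoc]
  congr 1
  have h1 : ∑ p ∈ P, ∑ p' ∈ P, Dr k d y * (Dr k p y * Dr k p' y) =
      Dr k d y * ((∑ p ∈ P, Dr k p y) * (∑ p ∈ P, Dr k p y)) := by
    rw [Finset.sum_mul_sum, Finset.mul_sum]
    apply Finset.sum_congr rfl
    intro p _
    rw [Finset.mul_sum]
  have h2 : ∑ p ∈ P, Dr k d y * Dr k p y = Dr k d y * ∑ p ∈ P, Dr k p y := by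
    rw [Finset.mul_sum]
  rw [h1, h2]
  ring

theorem expand2 (P : Finset ℕ) (lam : ℝ) (y : ℤ) :
    (∑ p ∈ P, Dr k p y + lam) ^ 2 =
      (∑ p ∈ P, ∑ p' ∈ P, Dr k p y * Dr k p' y) + ((2 * lam) * (∑ p ∈ P, Dr k p y) + lam ^ 2) := by
  rw [← Finset.sum_mul_sum]
  ring

theorem core_ineq (hU : 0 < U) (hQ : 0 < Q) (hk : 0 < k) (P : Finset ℕ)
    (hP : ∀ p ∈ P, p.Prime ∧ Q ≤ p ∧ p ≤ 4 * Q ∧ p ≤ k ∧ p ≤ 16 * min (k % p) (p - k % p))
    (lam : ℝ) (hlam : 0 ≤ lam) (B : ℝ) (hB : 0 ≤ B)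
    (hS : ∀ y : ℤ, x0 ≤ y → y ≤ x0 + r * U → ∑ d ∈ Icc 1 k, vonMangoldt d * Dr k d y ≤ B) :
    lam / 8 * (P.card * Real.log Q) ≤ P.card * Real.log k +
      eta k Q U r * (P.card + lam) ^ 2 * (k * k) +
      B * (P.card + lam ^ 2 + eta k Q U r * (P.card + lam) ^ 2) := by
  have he0 := eta_nonneg k Q U r
  set e := eta k Q U r with he
  set c : ℝ := (P.card : ℝ) with hc
  have hc0 : 0 ≤ c := by positivity
  -- upper bound
  have hup1 : E U r x0 (fun y => (∑ d ∈ Icc 1 k, vonMangoldt d * Dr k d y) *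
      (∑ p ∈ P, Dr k p y + lam) ^ 2) ≤ B * E U r x0 (fun y => (∑ p ∈ P, Dr k p y + lam) ^ 2) := by
    rw [← E_mul]
    apply E_mono
    intro y hy1 hy2
    exact mul_le_mul_of_nonneg_right (hS y hy1 hy2) (sq_nonneg _)
  have hT : E U r x0 (fun y => (∑ p ∈ P, Dr k p y + lam) ^ 2) ≤ c + lam ^ 2 + e * (c + lam) ^ 2 := by
    simp only [expand2]
    rw [E_add, E_add, E_mul, E_const U r hU, E_sum, E_sum]
    simp only [E_sum]
    have h1 : ∑ p ∈ P, ∑ p' ∈ P, E U r x0 (fun y => Dr k p y * Dr k p' y) ≤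
        ∑ p ∈ P, ∑ p' ∈ P, (e + if p = p' then 1 else 0) := by
      apply Finset.sum_le_sum
      intro p hp
      apply Finset.sum_le_sum
      intro p' hp'
      obtain ⟨hpp, _, hpQ, hpk, _⟩ := hP p hp
      obtain ⟨hpp', _, hpQ', hpk', _⟩ := hP p' hp'
      by_cases h : p = p'
      · rw [if_pos h]
        have := (abs_le.1 (E_abs_le_one U r x0 hU (fun y => Dr k p y * Dr k p' y) (fun y =>
          abs_mul_le_one (Dr_abs k p hpp.pos y) (Dr_abs k p' hpp'.pos y)))).2
        linarith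
      · rw [if_neg h, add_zero]
        exact (abs_le.1 (T2 k Q U r x0 hU hQ p hpp.pos hpk p' hpp'.pos hpQ'
          ((Nat.coprime_primes hpp hpp').2 h))).2
    have h2 : ∑ p ∈ P, ∑ p' ∈ P, (e + if p = p' then (1 : ℝ) else 0) = c * c * e + c := by
      simp only [Finset.sum_add_distrib, Finset.sum_const, nsmul_eq_mul, Finset.sum_ite_eq]
      rw [Finset.sum_congr rfl (fun p hp => if_pos hp), Finset.sum_const, nsmul_eq_mul]
      ring
    have h3 : ∑ p ∈ P, E U r x0 (Dr k p) ≤ ∑ p ∈ P, e := by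
      apply Finset.sum_le_sum
      intro p hp
      obtain ⟨hpp, _, hpQ, hpk, _⟩ := hP p hp
      exact (abs_le.1 (T1 k Q U r x0 hU hQ p hpp.pos hpk)).2
    rw [Finset.sum_const, nsmul_eq_mul] at h3
    have h4 : 2 * lam * ∑ p ∈ P, E U r x0 (Dr k p) ≤ 2 * lam * (c * e) :=
      mul_le_mul_of_nonneg_left h3 (by positivity)
    have h5 : ∑ p ∈ P, ∑ p' ∈ P, E U r x0 (fun y => Dr k p y * Dr k p' y) ≤ c * c * e + c :=
      h1.trans h2.le
    have h6 : 0 ≤ e * lam ^ 2 := by positivity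
    nlinarith [h4, h5, h6]
  -- lower bound
  have hlow : lam / 8 * (c * Real.log Q) - c * Real.log k - e * (c + lam) ^ 2 * (k * k) ≤
      E U r x0 (fun y => (∑ d ∈ Icc 1 k, vonMangoldt d * Dr k d y) *
      (∑ p ∈ P, Dr k p y + lam) ^ 2) := by
    simp only [expand]
    rw [E_sum]
    have hW : ∀ d ∈ Icc 1 k, vonMangoldt d * (-(e * (c + lam) ^ 2) -
        (∑ p ∈ P, if p ∣ d then (1 : ℝ) else 0) + lam / 8 * (∑ p ∈ P, if d = p then 1 else 0)) ≤
        E U r x0 (fun y => vonMangoldt d * ((∑ p ∈ P, ∑ p' ∈ P, Dr k d y * (Dr k p y * Dr k p' y)) +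
        ((2 * lam) * (∑ p ∈ P, Dr k d y * Dr k p y) + lam ^ 2 * Dr k d y))) := by
      intro d hd
      rw [Finset.mem_Icc] at hd
      rw [E_mul]
      by_cases hpp : IsPrimePow d
      · apply mul_le_mul_of_nonneg_left _ vonMangoldt_nonneg
        rw [E_add, E_add, E_mul, E_mul, E_sum, E_sum]
        simp only [E_sum]
        have h1 : ∑ p ∈ P, ∑ p' ∈ P, (-e - (if p = p' ∧ p ∣ d then (1 : ℝ) else 0)) ≤
            ∑ p ∈ P, ∑ p' ∈ P, E U r x0 (fun y => Dr k d y * (Dr k p y * Dr k p' y)) := by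
          apply Finset.sum_le_sum
          intro p hp
          apply Finset.sum_le_sum
          intro p' hp'
          obtain ⟨hpp1, _, hpQ, hpk, _⟩ := hP p hp
          obtain ⟨hpp1', _, hpQ', hpk', _⟩ := hP p' hp'
          exact T3 k Q U r x0 hU d hd.1 hpp hd.2 p p' hpp1 hpQ hpp1' hpQ'
        have h2 : ∑ p ∈ P, ∑ p' ∈ P, (-e - (if p = p' ∧ p ∣ d then (1 : ℝ) else 0)) =
            -(c * c * e) - ∑ p ∈ P, (if p ∣ d then (1 : ℝ) else 0) := by
          simp only [Finset.sum_sub_distrib, Finset.sum_const, nsmul_eq_mul, ite_and,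
            Finset.sum_ite_eq]
          have h21 : ∑ p ∈ P, (if p ∈ P then (if p ∣ d then (1 : ℝ) else 0) else 0) =
              ∑ p ∈ P, (if p ∣ d then (1 : ℝ) else 0) :=
            Finset.sum_congr rfl (fun p hp => if_pos hp)
          rw [h21]
          ring
        have h3 : ∑ p ∈ P, (-e + (if d = p then (1 : ℝ) / 16 else 0)) ≤
            ∑ p ∈ P, E U r x0 (fun y => Dr k d y * Dr k p y) := by
          apply Finset.sum_le_sum
          intro p hp
          obtain ⟨hpp1, _, hpQ, hpk, hmin⟩ := hP p hp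
          exact T2full k Q U r x0 hU hQ d hd.1 hpp hd.2 p hpp1 hpQ hmin
        have h4 : ∑ p ∈ P, (-e + (if d = p then (1 : ℝ) / 16 else 0)) =
            -(c * e) + 1 / 16 * ∑ p ∈ P, (if d = p then (1 : ℝ) else 0) := by
          rw [Finset.sum_add_distrib, Finset.sum_const, nsmul_eq_mul, Finset.mul_sum]
          congr 1
          · ring
          · apply Finset.sum_congr rfl
            intro p _
            split_ifs <;> norm_num
        have h5 : -e ≤ E U r x0 (Dr k d) := (abs_le.1 (T1 k Q U r x0 hU hQ d hd.1 hd.2)).1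
        rw [h2] at h1
        rw [h4] at h3
        have h6 := mul_le_mul_of_nonneg_left h3 (by positivity : (0 : ℝ) ≤ 2 * lam)
        have h7 := mul_le_mul_of_nonneg_left h5 (by positivity : (0 : ℝ) ≤ lam ^ 2)
        nlinarith [h1, h6, h7]
      · have : vonMangoldt d = 0 := vonMangoldt_eq_zero_iff.2 hpp
        rw [this, zero_mul, zero_mul]
    refine le_trans ?_ (Finset.sum_le_sum hW)
    have hsplit : ∑ d ∈ Icc 1 k, vonMangoldt d * (-(e * (c + lam) ^ 2) -
        (∑ p ∈ P, if p ∣ d then (1 : ℝ) else 0) + lam / 8 * (∑ p ∈ P, if d = p then 1 else 0)) =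
        -(e * (c + lam) ^ 2) * (∑ d ∈ Icc 1 k, vonMangoldt d) -
        (∑ p ∈ P, ∑ d ∈ Icc 1 k, if p ∣ d then vonMangoldt d else 0) +
        lam / 8 * (∑ p ∈ P, ∑ d ∈ Icc 1 k, if d = p then vonMangoldt d else 0) := by
      rw [Finset.sum_comm (s := P), Finset.sum_comm (s := P), Finset.mul_sum, Finset.mul_sum,
        ← Finset.sum_sub_distrib, ← Finset.sum_add_distrib]
      apply Finset.sum_congr rfl
      intro d _
      have h1 : ∑ p ∈ P, (if p ∣ d then vonMangoldt d else 0) =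
          vonMangoldt d * ∑ p ∈ P, (if p ∣ d then (1 : ℝ) else 0) := by
        rw [Finset.mul_sum]
        apply Finset.sum_congr rfl
        intro p _
        split_ifs <;> simp
      have h2 : ∑ p ∈ P, (if d = p then vonMangoldt d else 0) =
          vonMangoldt d * ∑ p ∈ P, (if d = p then (1 : ℝ) else 0) := by
        rw [Finset.mul_sum]
        apply Finset.sum_congr rfl
        intro p _
        split_ifs <;> simp
      rw [h1, h2]
      ring
    rw [hsplit]
    have g1 : ∑ p ∈ P, ∑ d ∈ Icc 1 k, (if p ∣ d then vonMangoldt d else 0) ≤ c * Real.log k := by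
      calc _ ≤ ∑ p ∈ P, Real.log k := by
            apply Finset.sum_le_sum
            intro p hp
            exact sum_vonMangoldt_mult k p (hP p hp).1 hk
        _ = c * Real.log k := by rw [Finset.sum_const, nsmul_eq_mul]
    have g2 : c * Real.log Q ≤
        ∑ p ∈ P, ∑ d ∈ Icc 1 k, (if d = p then vonMangoldt d else 0) := by
      calc c * Real.log Q = ∑ p ∈ P, Real.log Q := by rw [Finset.sum_const, nsmul_eq_mul]
        _ ≤ _ := by
          apply Finset.sum_le_sum
          intro p hp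
          obtain ⟨hpp1, hQp, hpQ, hpk, hmin⟩ := hP p hp
          rw [Finset.sum_ite_eq', if_pos (Finset.mem_Icc.2 ⟨hpp1.one_lt.le, hpk⟩),
            vonMangoldt_apply_prime hpp1]
          apply Real.log_le_log
          · exact_mod_cast hQ
          · exact_mod_cast hQp
    have g3 := sum_vonMangoldt_le k
    have g4 : 0 ≤ e * (c + lam) ^ 2 := by positivity
    have g5 := mul_le_mul_of_nonneg_left g3 g4
    have g6 := mul_le_mul_of_nonneg_left g2 (by positivity : (0 : ℝ) ≤ lam / 8)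
    linarith
  have hBT := mul_le_mul_of_nonneg_left hT hB
  linarith

end Pool.Agent.Helper108.KN.Core
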