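import Mathlib
import Pool.Agent.Helper108.KN.Core

set_option autoImplicit false

namespace Pool.Agent.Helper108.KN.NonRev

open Finset ArithmeticFunction
open Pool.Agent.Helper108.KN.LogLcm Pool.Agent.Helper108.KN.FloorDiff Pool.Agent.Helper108.KN.Averages
open Pool.Agent.Helper108.KN.Corr Pool.Agent.Helper108.KN.Core

theorem blockLcm_pos (n k : ℕ) : 0 < blockLcm n k := by
  apply Nat.pos_of_ne_zero
  apply lcm_ne_zero'
  intro i hi
  rw [Finset.mem_Icc] at hi
  omega

theorem S_eq (n k : ℕ) (hkn : k ≤ n) :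
    ∑ d ∈ Icc 1 k, vonMangoldt d * Dr k d (n : ℤ) =
      (∑ i ∈ Icc (n + 1) (n + k), Real.log i - Real.log (blockLcm n k)) -
      (∑ i ∈ Icc (n - k + 1) (n - k + k), Real.log i - Real.log (blockLcm (n - k) k)) := by
  rw [log_prod_sub, log_prod_sub, ← Finset.sum_sub_distrib]
  apply Finset.sum_congr rfl
  intro d _
  rw [← mul_sub]
  congr 1
  unfold Dr D
  rw [Nat.sub_add_cancel hkn]
  have h1 : (((n : ℤ) + (k : ℤ)) / (d : ℤ)) = (((n + k) / d : ℕ) : ℤ) := by push_cast; rfl
  have h2 : (((n : ℤ) - (k : ℤ)) / (d : ℤ)) = (((n - k) / d : ℕ) : ℤ) := by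
    push_cast [Nat.cast_sub hkn]; rfl
  have h3 : ((n : ℤ) / (d : ℤ)) = ((n / d : ℕ) : ℤ) := by push_cast; rfl
  rw [h1, h2, h3]
  simp only [Int.cast_add, Int.cast_sub, Int.cast_mul, Int.cast_natCast, Int.cast_ofNat]
  ring

theorem log_prod_diff (n k : ℕ) (hkn : k < n) :
    ∑ i ∈ Icc (n + 1) (n + k), Real.log i - ∑ i ∈ Icc (n - k + 1) (n - k + k), Real.log i ≤
      (k : ℝ) * k / ((n : ℝ) - k) := by
  have hnk : (0 : ℝ) < (n : ℝ) - k := by
    have : (k : ℝ) < n := by exact_mod_cast hkn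
    linarith
  have hshift : ∀ m : ℕ, ∑ i ∈ Icc (m + 1) (m + k), Real.log i =
      ∑ j ∈ range k, Real.log ((m + 1 + j : ℕ) : ℝ) := by
    intro m
    have h1 : Icc (m + 1) (m + k) = Ico (m + 1) (m + 1 + k) := by
      ext i
      rw [Finset.mem_Icc, Finset.mem_Ico]
      omega
    rw [h1, Finset.sum_Ico_eq_sum_range, Nat.add_sub_cancel_left]
  rw [hshift, hshift, ← Finset.sum_sub_distrib]
  calc _ ≤ ∑ j ∈ range k, (k : ℝ) / ((n : ℝ) - k) := by
        apply Finset.sum_le_sum
        intro j _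
        have hpos : (0 : ℝ) < ((n - k + 1 + j : ℕ) : ℝ) := by positivity
        have hpos' : (0 : ℝ) < ((n + 1 + j : ℕ) : ℝ) := by positivity
        rw [← Real.log_div hpos'.ne' hpos.ne']
        have h1 : ((n + 1 + j : ℕ) : ℝ) / ((n - k + 1 + j : ℕ) : ℝ) =
            1 + (k : ℝ) / ((n - k + 1 + j : ℕ) : ℝ) := by
          rw [eq_comm, ← sub_eq_zero]
          field_simp
          push_cast [Nat.cast_sub hkn.le]
          ring
        rw [h1]
        have h2 : Real.log (1 + (k : ℝ) / ((n - k + 1 + j : ℕ) : ℝ)) ≤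
            (k : ℝ) / ((n - k + 1 + j : ℕ) : ℝ) := by
          have := Real.log_le_sub_one_of_pos
            (by positivity : 0 < 1 + (k : ℝ) / ((n - k + 1 + j : ℕ) : ℝ))
          linarith
        refine h2.trans ?_
        apply div_le_div_of_nonneg_left (by positivity) hnk
        push_cast [Nat.cast_sub hkn.le]
        have : (0 : ℝ) ≤ j := by positivity
        linarith
    _ = (k : ℝ) * k / ((n : ℝ) - k) := by
        rw [Finset.sum_const, Finset.card_range, nsmul_eq_mul, mul_div_assoc]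

/-- if the comparison is not reversed, the weighted sum is small. -/
theorem S_le (n k : ℕ) (hkn : k < n) (h : blockLcm (n - k) k ≤ blockLcm n k) :
    ∑ d ∈ Icc 1 k, vonMangoldt d * Dr k d (n : ℤ) ≤ (k : ℝ) * k / ((n : ℝ) - k) := by
  rw [S_eq n k hkn.le]
  have h1 := log_prod_diff n k hkn
  have h2 : Real.log (blockLcm (n - k) k) ≤ Real.log (blockLcm n k) := by
    apply Real.log_le_log
    · exact_mod_cast blockLcm_pos _ _
    · exact_mod_cast h
  linarith

end Pool.Agent.Helper108.KN.NonRev
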