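import Mathlib

set_option autoImplicit false

namespace Pool.Agent.Helper108.KN.Primes

open Finset

/-- primes in `(Q, 4Q]`. -/
def PQ (Q : ℕ) : Finset ℕ := (Icc (Q + 1) (4 * Q)).filter Nat.Prime

theorem shift_good (K s p : ℕ) (hp : 0 < p) (h1 : p ≤ 8 * s) (h2 : 8 * s ≤ 7 * p) :
    p ≤ 16 * min (K % p) (p - K % p) ∨ p ≤ 16 * min ((K + s) % p) (p - (K + s) % p) := by
  have ha : K % p < p := Nat.mod_lt _ hp
  have hs : s < p := by omega
  have hb : (K + s) % p = K % p + s ∨ (K + s) % p + p = K % p + s := by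
    rw [Nat.add_mod, Nat.mod_eq_of_lt hs]
    by_cases h : K % p + s < p
    · left; exact Nat.mod_eq_of_lt h
    · right
      rw [Nat.mod_eq_sub_mod (by omega), Nat.mod_eq_of_lt (by omega)]
      omega
  have hb' : (K + s) % p < p := Nat.mod_lt _ hp
  omega

theorem exists_shift (Q K : ℕ) (hQ : 2 ≤ Q) :
    ∃ k, K ≤ k ∧ k ≤ K + Q ∧ ∃ P : Finset ℕ,
      (∀ p ∈ P, p.Prime ∧ Q ≤ p ∧ p ≤ 4 * Q ∧ p ≤ 16 * min (k % p) (p - k % p)) ∧
      (PQ Q).card ≤ 2 * P.card := by
  set s := (Q + 1) / 2 with hs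
  set A := (PQ Q).filter (fun p => p ≤ 16 * min (K % p) (p - K % p)) with hA
  set B := (PQ Q).filter (fun p => p ≤ 16 * min ((K + s) % p) (p - (K + s) % p)) with hB
  have hcov : PQ Q ⊆ A ∪ B := by
    intro p hp
    have hp' := hp
    rw [PQ, Finset.mem_filter, Finset.mem_Icc] at hp'
    rw [Finset.mem_union, hA, hB, Finset.mem_filter, Finset.mem_filter]
    rcases shift_good K s p hp'.2.pos (by omega) (by omega) with h | h
    · exact Or.inl ⟨hp, h⟩
    · exact Or.inr ⟨hp, h⟩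
  have hcard : (PQ Q).card ≤ A.card + B.card :=
    (Finset.card_le_card hcov).trans (Finset.card_union_le _ _)
  by_cases h : B.card ≤ A.card
  · refine ⟨K, le_rfl, by omega, A, ?_, by omega⟩
    intro p hp
    rw [hA, Finset.mem_filter, PQ, Finset.mem_filter, Finset.mem_Icc] at hp
    exact ⟨hp.1.2, by omega, hp.1.1.2, hp.2⟩
  · refine ⟨K + s, by omega, by omega, B, ?_, by omega⟩
    intro p hp
    rw [hB, Finset.mem_filter, PQ, Finset.mem_filter, Finset.mem_Icc] at hp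
    exact ⟨hp.1.2, by omega, hp.1.1.2, hp.2⟩

theorem theta_diff_le (Q : ℕ) (hQ : 1 ≤ Q) :
    Chebyshev.theta ((4 * Q : ℕ) : ℝ) - Chebyshev.theta (Q : ℝ) ≤
      (PQ Q).card * Real.log (4 * Q : ℕ) := by
  have h1 : Chebyshev.theta ((4 * Q : ℕ) : ℝ) =
      Chebyshev.theta (Q : ℝ) + ∑ p ∈ PQ Q, Real.log p := by
    rw [Chebyshev.theta_eq_sum_Icc, Chebyshev.theta_eq_sum_Icc, Nat.floor_natCast,
      Nat.floor_natCast]
    have h2 : (Icc 0 (4 * Q)).filter Nat.Prime = (Icc 0 Q).filter Nat.Prime ∪ PQ Q := by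
      ext p
      simp only [PQ, Finset.mem_filter, Finset.mem_union, Finset.mem_Icc]
      constructor
      · rintro ⟨h, h'⟩
        by_cases hp : p ≤ Q
        · exact Or.inl ⟨⟨h.1, hp⟩, h'⟩
        · exact Or.inr ⟨⟨by omega, h.2⟩, h'⟩
      · rintro (⟨h, h'⟩ | ⟨h, h'⟩)
        · exact ⟨⟨h.1, by omega⟩, h'⟩
        · exact ⟨⟨by omega, h.2⟩, h'⟩
    have h3 : Disjoint ((Icc 0 Q).filter Nat.Prime) (PQ Q) := by
      rw [Finset.disjoint_left]
      intro p hp hp'
      rw [Finset.mem_filter, Finset.mem_Icc] at hp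
      rw [PQ, Finset.mem_filter, Finset.mem_Icc] at hp'
      omega
    rw [h2, Finset.sum_union h3]
  rw [h1, add_sub_cancel_left]
  calc ∑ p ∈ PQ Q, Real.log p ≤ ∑ p ∈ PQ Q, Real.log (4 * Q : ℕ) := by
        apply Finset.sum_le_sum
        intro p hp
        rw [PQ, Finset.mem_filter, Finset.mem_Icc] at hp
        apply Real.log_le_log
        · exact_mod_cast hp.2.pos
        · exact_mod_cast hp.1.2
    _ = _ := by rw [Finset.sum_const, nsmul_eq_mul]

theorem card_PQ_ge : ∀ᶠ Q : ℕ in Filter.atTop,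
    (Q : ℝ) ≤ (PQ Q).card * Real.log (4 * Q : ℕ) := by
  have h1 : ∀ᶠ Q : ℕ in Filter.atTop,
      Real.log ((4 * Q : ℕ) + 1) + 2 * Real.sqrt (4 * Q : ℕ) * Real.log (4 * Q : ℕ) ≤
        (0.08 : ℝ) * (4 * Q : ℕ) := by
    have ht : Filter.Tendsto (fun Q : ℕ => ((4 * Q : ℕ) : ℝ)) Filter.atTop Filter.atTop := by
      apply tendsto_natCast_atTop_atTop.comp
      exact Filter.tendsto_id.const_mul_atTop' (by norm_num : 0 < 4)
    have hreal : ∀ᶠ x : ℝ in Filter.atTop,
        Real.log (x + 1) + 2 * Real.sqrt x * Real.log x ≤ (0.08 : ℝ) * x := by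
      have hl := (isLittleO_log_rpow_atTop (by norm_num : (0 : ℝ) < 1 / 4))
      have hl' := hl.bound (by norm_num : (0 : ℝ) < 1)
      have hp : ∀ᶠ x : ℝ in Filter.atTop, (100 : ℝ) ≤ x ^ ((1 : ℝ) / 4) :=
        (tendsto_rpow_atTop (by norm_num : (0 : ℝ) < 1 / 4)).eventually_ge_atTop 100
      filter_upwards [hl', hp, Filter.eventually_ge_atTop 1] with x hx1 hx2 hx3
      have hx0 : (0 : ℝ) < x := by linarith
      set t := x ^ ((1 : ℝ) / 4) with ht
      have ht0 : 0 < t := by positivity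
      have hlog0 : 0 ≤ Real.log x := Real.log_nonneg hx3
      rw [Real.norm_of_nonneg hlog0, Real.norm_of_nonneg ht0.le, one_mul] at hx1
      have hsq : Real.sqrt x = t ^ 2 := by
        rw [ht, ← Real.rpow_natCast, ← Real.rpow_mul hx0.le, Real.sqrt_eq_rpow]
        norm_num
      have hx4 : x = t ^ 4 := by
        rw [ht, ← Real.rpow_natCast, ← Real.rpow_mul hx0.le]
        norm_num
      have hlog2 : Real.log (x + 1) ≤ Real.log x + 1 := by
        have : x + 1 ≤ x * Real.exp 1 := by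
          have := Real.add_one_le_exp (1 : ℝ)
          nlinarith
        calc Real.log (x + 1) ≤ Real.log (x * Real.exp 1) :=
              Real.log_le_log (by linarith) this
          _ = Real.log x + 1 := by rw [Real.log_mul hx0.ne' (Real.exp_ne_zero _), Real.log_exp]
      rw [hsq]
      have h5 : 2 * t ^ 2 * Real.log x ≤ 2 * t ^ 2 * t :=
        mul_le_mul_of_nonneg_left hx1 (by positivity)
      have h6 : t + 1 + 2 * t ^ 2 * t ≤ 0.08 * t ^ 4 := by
        have h7 : t ^ 4 = t * t ^ 3 := by ring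
        have h8 : 100 * t ^ 3 ≤ t ^ 4 := by
          rw [h7]
          exact mul_le_mul_of_nonneg_right hx2 (by positivity)
        have h9 : t + 1 ≤ t ^ 3 := by nlinarith [sq_nonneg (t - 1)]
        nlinarith
      rw [hx4]
      rw [hx4] at hlog2 h5 hx1
      linarith
    exact ht.eventually hreal
  filter_upwards [h1, Filter.eventually_ge_atTop 1] with Q hQ hQ1
  have h2 := Chebyshev.theta_ge (4 * Q)
  have h3 := Chebyshev.theta_le_log4_mul_x (x := (Q : ℝ)) (by positivity)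
  have h4 := theta_diff_le Q hQ1
  have h5 : Real.log 4 = 2 * Real.log 2 := by
    rw [show (4 : ℝ) = 2 ^ 2 by norm_num, Real.log_pow]
    norm_num
  have h6 := Real.log_two_gt_d9
  have hQr : (1 : ℝ) ≤ Q := by exact_mod_cast hQ1
  have h7 : ((4 * Q : ℕ) : ℝ) = 4 * Q := by push_cast; ring
  rw [h5] at h3
  have h8 : ((4 * Q : ℕ) : ℝ) * Real.log 2 = 4 * (Q * Real.log 2) := by rw [h7]; ring
  have h9 : (0.69 : ℝ) * Q ≤ Q * Real.log 2 := by nlinarith
  have h10 : (0.08 : ℝ) * ((4 * Q : ℕ) : ℝ) = 0.32 * Q := by rw [h7]; ring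
  have h11 : 2 * Real.log 2 * (Q : ℝ) = 2 * (Q * Real.log 2) := by ring
  rw [h8] at h2
  rw [h10] at hQ
  rw [h11] at h3
  linarith

end Pool.Agent.Helper108.KN.Primes
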