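import Mathlib
import Pool.Agent.Helper108.KN.NonRev
import Pool.Agent.Helper108.KN.Primes

set_option autoImplicit false
set_option maxHeartbeats 4000000

namespace Pool.Agent.Helper108.KN.Scale

open Finset ArithmeticFunction
open Pool.Agent.Helper108.KN.LogLcm Pool.Agent.Helper108.KN.FloorDiff Pool.Agent.Helper108.KN.Averages
open Pool.Agent.Helper108.KN.Corr Pool.Agent.Helper108.KN.Core Pool.Agent.Helper108.KN.NonRev
open Pool.Agent.Helper108.KN.Primes

/-- The finite part of the argument: real inequalities at one scale. -/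
theorem scale (θ a β C0 : ℝ) (r N : ℕ) (h1 : 1 / 2 ≤ θ) (h2 : θ < 5 / 9)
    (ha : a = (5 - 9 * θ) / 8) (hβ : β = (7 * θ - 3) / 4) (hC0 : C0 = r + 4)
    (hr : 5 ≤ 4 * a * r)
    (e1 : 6 ≤ (N : ℝ) ^ β) (e2 : C0 * (N : ℝ) ^ θ ≤ N / 2) (e3 : 4 * (N : ℝ) ^ β ≤ (N : ℝ) ^ θ)
    (e4 : Real.log (4 * N) ≤ (N : ℝ) ^ (a / 4)) (e5 : 16 * (1 + 6 * C0 ^ 2) < (N : ℝ) ^ (a / 2))
    (e6 : 128 * (16 * C0) ^ r ≤ N) (e7 : 4 ≤ (N : ℝ))
    (e8 : ((⌊(N : ℝ) ^ β⌋₊ : ℕ) : ℝ) ≤
      (PQ ⌊(N : ℝ) ^ β⌋₊).card * Real.log (4 * ⌊(N : ℝ) ^ β⌋₊ : ℕ)) :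
    ∃ n k : ℕ, N ≤ n ∧ n ≤ (r + 1) * N ∧ (n : ℝ) ^ θ < k ∧ k < n ∧
      blockLcm n k < blockLcm (n - k) k := by
  by_contra hcon
  push Not at hcon
  have ha0 : 0 < a := by rw [ha]; linarith
  have hβ0 : 0 < β := by rw [hβ]; linarith
  have hx0 : (0 : ℝ) < N := by linarith
  have hx1 : (1 : ℝ) ≤ N := by linarith
  have hN0 : 0 < N := by exact_mod_cast hx0
  set x : ℝ := (N : ℝ) with hx
  set Q := ⌊x ^ β⌋₊ with hQ
  set K := ⌈((r + 1 : ℝ) * x) ^ θ⌉₊ + 1 with hK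
  have hr0 : (0 : ℝ) ≤ r := by positivity
  have hC0' : 4 ≤ C0 := by rw [hC0]; linarith
  -- Q
  have hxβ0 : 0 < x ^ β := Real.rpow_pos_of_pos hx0 _
  have hQle : (Q : ℝ) ≤ x ^ β := Nat.floor_le hxβ0.le
  have hQge : x ^ β / 2 ≤ Q := by
    have := Nat.lt_floor_add_one (x ^ β)
    rw [← hQ] at this
    linarith
  have hQ3 : (3 : ℝ) ≤ Q := by linarith
  have hQ3' : 3 ≤ Q := by exact_mod_cast hQ3
  clear_value Q
  -- K
  have hKgt : ((r + 1 : ℝ) * x) ^ θ < K := by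
    have := Nat.le_ceil (((r + 1 : ℝ) * x) ^ θ)
    rw [hK]
    push_cast
    linarith
  have hxθ1 : 1 ≤ x ^ θ := Real.one_le_rpow hx1 (by linarith)
  have hrθ : ((r + 1 : ℝ) * x) ^ θ ≤ (r + 1) * x ^ θ := by
    rw [Real.mul_rpow (by positivity) hx0.le]
    apply mul_le_mul_of_nonneg_right _ (by positivity)
    calc ((r : ℝ) + 1) ^ θ ≤ ((r : ℝ) + 1) ^ (1 : ℝ) :=
          Real.rpow_le_rpow_of_exponent_le (by linarith) (by linarith)
      _ = r + 1 := Real.rpow_one _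
  have hKle : (K : ℝ) ≤ (r + 3) * x ^ θ := by
    have := Nat.ceil_lt_add_one (by positivity : 0 ≤ ((r + 1 : ℝ) * x) ^ θ)
    rw [hK]
    push_cast
    linarith
  have hK2 : ((r + 1 : ℝ) * x) ^ θ + 1 ≤ K := by
    have := Nat.le_ceil (((r + 1 : ℝ) * x) ^ θ)
    rw [hK]
    push_cast
    linarith
  have hK1 : 1 ≤ K := by omega
  clear_value K
  obtain ⟨k, hKk, hkK, P, hP, hPcard⟩ := exists_shift Q K (by omega)
  have hkle : (k : ℝ) ≤ C0 * x ^ θ := by
    have h3 : (k : ℝ) ≤ K + Q := by exact_mod_cast hkK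
    have h4 : x ^ β ≤ x ^ θ := by linarith
    rw [hC0]
    linarith
  have hk2 : (k : ℝ) ≤ x / 2 := hkle.trans e2
  have hkK' : (K : ℝ) ≤ k := by exact_mod_cast hKk
  have hk1 : (1 : ℝ) ≤ k := by
    have : (1 : ℝ) ≤ K := by exact_mod_cast hK1
    linarith
  have hk0 : 0 < k := by exact_mod_cast (by linarith : (0 : ℝ) < k)
  have h4Qk : 4 * Q ≤ k := by
    have h3 : x ^ θ ≤ ((r + 1 : ℝ) * x) ^ θ := by
      apply Real.rpow_le_rpow hx0.le _ (by linarith)
      have : 0 ≤ (r : ℝ) * x := by positivity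
      linarith
    have : (4 : ℝ) * Q ≤ k := by linarith
    exact_mod_cast this
  -- the hypothesis of the core inequality
  set B := 2 * (k : ℝ) * k / x with hB
  have hB0 : 0 ≤ B := by positivity
  have hS : ∀ y : ℤ, (N : ℤ) ≤ y → y ≤ (N : ℤ) + r * N →
      ∑ d ∈ Icc 1 k, vonMangoldt d * Dr k d y ≤ B := by
    intro y hy1 hy2
    obtain ⟨n, rfl⟩ := Int.eq_ofNat_of_zero_le (by linarith : 0 ≤ y)
    have hn1 : N ≤ n := by exact_mod_cast hy1
    have hn2 : n ≤ (r + 1) * N := by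
      have : (n : ℤ) ≤ ((r + 1) * N : ℕ) := by push_cast; linarith
      exact_mod_cast this
    have hn1r : x ≤ n := by rw [hx]; exact_mod_cast hn1
    have hn2r : (n : ℝ) ≤ (r + 1) * x := by rw [hx]; exact_mod_cast hn2
    have hkn : (n : ℝ) ^ θ < k := by
      calc (n : ℝ) ^ θ ≤ ((r + 1 : ℝ) * x) ^ θ :=
            Real.rpow_le_rpow (by positivity) hn2r (by linarith)
        _ < K := hKgt
        _ ≤ k := hkK'
    have hklt : k < n := by
      have : (k : ℝ) < n := by linarith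
      exact_mod_cast this
    have hle := hcon n k hn1 hn2 hkn hklt
    have h5 := S_le n k hklt hle
    refine h5.trans ?_
    rw [hB, div_le_div_iff₀ (by linarith) hx0]
    have h6 : x ≤ 2 * ((n : ℝ) - k) := by linarith
    calc (k : ℝ) * k * x ≤ k * k * (2 * ((n : ℝ) - k)) :=
          mul_le_mul_of_nonneg_left h6 (by positivity)
      _ = 2 * (k : ℝ) * k * ((n : ℝ) - k) := by ring
  have hcore := core_ineq k Q N r (N : ℤ) hN0 (by omega) hk0 P
    (fun p hp => by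
      obtain ⟨q1, q2, q3, q4⟩ := hP p hp
      exact ⟨q1, q2, q3, by omega, q4⟩) (Real.sqrt P.card) (Real.sqrt_nonneg _) B hB0 hS
  set c : ℝ := (P.card : ℝ) with hc
  -- size of P
  have hL0 : Real.log (4 * x) = Real.log 4 + Real.log x := Real.log_mul (by norm_num) hx0.ne'
  have hlog4 : 1 ≤ Real.log 4 := by
    rw [show (4 : ℝ) = 2 ^ 2 by norm_num, Real.log_pow]
    have := Real.log_two_gt_d9
    push_cast
    linarith
  have hlogx0 : 0 ≤ Real.log x := Real.log_nonneg hx1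
  set L := Real.log (4 * x) with hL
  have hL1 : 1 ≤ L := by linarith
  have h4Qr : (4 : ℝ) * Q ≤ k := by exact_mod_cast h4Qk
  have hQx : (Q : ℝ) ≤ x := by linarith
  have hcge : x ^ β ≤ 4 * L * c := by
    have h3 : Real.log (4 * Q : ℕ) ≤ L := by
      apply Real.log_le_log
      · have : 0 < 4 * Q := by omega
        exact_mod_cast this
      · push_cast
        linarith
    have h4 : ((PQ Q).card : ℝ) ≤ 2 * c := by rw [hc]; exact_mod_cast hPcard
    have h5 : ((PQ Q).card : ℝ) * Real.log (4 * Q : ℕ) ≤ 2 * c * L :=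
      mul_le_mul h4 h3 (Real.log_natCast_nonneg _) (by positivity)
    linarith
  have hc0 : 0 < c := by
    have : 0 < 4 * L * c := by linarith
    by_contra hneg
    push Not at hneg
    have h5 : 4 * L * c ≤ 0 := mul_nonpos_of_nonneg_of_nonpos (by linarith) hneg
    linarith
  have hc1 : 1 ≤ c := by
    rw [hc] at hc0 ⊢
    have : 0 < P.card := by exact_mod_cast hc0
    exact_mod_cast this
  have hcle : c ≤ 4 * Q := by
    have : P ⊆ Icc 1 (4 * Q) := by
      intro p hp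
      obtain ⟨q1, q2, q3, q4⟩ := hP p hp
      rw [Finset.mem_Icc]
      exact ⟨q1.one_lt.le, q3⟩
    have := Finset.card_le_card this
    rw [Nat.card_Icc] at this
    have : P.card ≤ 4 * Q := by omega
    rw [hc]
    exact_mod_cast this
  set lam := Real.sqrt c with hlam
  have hlam0 : 0 ≤ lam := Real.sqrt_nonneg _
  have hlamsq : lam ^ 2 = c := Real.sq_sqrt hc0.le
  have hlam1 : 1 ≤ lam := by
    rw [hlam, ← Real.sqrt_one]
    exact Real.sqrt_le_sqrt hc1
  have hlamc : lam ≤ c := by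
    rw [← hlamsq, sq]
    exact le_mul_of_one_le_left hlam0 hlam1
  -- eta
  set e := eta k Q N r with he
  have he0 : 0 ≤ e := eta_nonneg k Q N r
  have heB : e * (64 * x ^ 2 * x ^ 2) ≤ 1 := by
    have h3 : ((16 * k * Q ^ 2 : ℕ) : ℝ) / (N : ℝ) ≤ 16 * C0 * x ^ (-(4 * a)) := by
      rw [div_le_iff₀ hx0]
      push_cast
      have h4 : (Q : ℝ) ^ 2 ≤ x ^ (2 * β) := by
        calc (Q : ℝ) ^ 2 ≤ (x ^ β) ^ 2 := by gcongr
          _ = x ^ (2 * β) := by
            rw [← Real.rpow_natCast, ← Real.rpow_mul hx0.le]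
            congr 1
            push_cast
            ring
      have h5 : x ^ θ * x ^ (2 * β) = x ^ (-(4 * a)) * x := by
        rw [← Real.rpow_add hx0]
        nth_rewrite 3 [← Real.rpow_one x]
        rw [← Real.rpow_add hx0]
        congr 1
        rw [ha, hβ]
        ring
      calc 16 * (k : ℝ) * (Q : ℝ) ^ 2 ≤ 16 * (C0 * x ^ θ) * x ^ (2 * β) := by
            gcongr
        _ = 16 * C0 * (x ^ θ * x ^ (2 * β)) := by ring
        _ = 16 * C0 * (x ^ (-(4 * a)) * x) := by rw [h5]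
        _ = 16 * C0 * x ^ (-(4 * a)) * N := by rw [← hx]; ring
    have h6 : e ≤ 2 * ((16 * C0) ^ r * x ^ (-(5 : ℝ))) := by
      rw [he, eta]
      have h7 : (((16 * k * Q ^ 2 : ℕ) : ℝ) / (N : ℝ)) ^ r ≤ (16 * C0 * x ^ (-(4 * a))) ^ r := by
        gcongr
      have h8 : (x ^ (-(4 * a))) ^ r ≤ x ^ (-(5 : ℝ)) := by
        rw [← Real.rpow_natCast, ← Real.rpow_mul hx0.le]
        apply Real.rpow_le_rpow_of_exponent_le hx1
        linarith
      rw [mul_pow] at h7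
      have h9 : (16 * C0) ^ r * (x ^ (-(4 * a))) ^ r ≤ (16 * C0) ^ r * x ^ (-(5 : ℝ)) := by
        gcongr
      linarith
    have h10 : x ^ (-(5 : ℝ)) * (x ^ 2 * x ^ 2) * x = 1 := by
      have : x ^ 2 * x ^ 2 * x = x ^ (5 : ℝ) := by
        rw [show (5 : ℝ) = ((5 : ℕ) : ℝ) by norm_num, Real.rpow_natCast]
        ring
      rw [mul_assoc, this, ← Real.rpow_add hx0]
      norm_num
    have h11 : x * (e * (64 * x ^ 2 * x ^ 2)) ≤ x * 1 := by
      calc x * (e * (64 * x ^ 2 * x ^ 2)) = e * (64 * (x ^ 2 * x ^ 2) * x) := by ring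
        _ ≤ 2 * ((16 * C0) ^ r * x ^ (-(5 : ℝ))) * (64 * (x ^ 2 * x ^ 2) * x) := by gcongr
        _ = 128 * (16 * C0) ^ r * (x ^ (-(5 : ℝ)) * (x ^ 2 * x ^ 2) * x) := by ring
        _ = 128 * (16 * C0) ^ r := by rw [h10, mul_one]
        _ ≤ x * 1 := by rw [mul_one]; exact e6
    exact le_of_mul_le_mul_left h11 hx0
  have hkx : (k : ℝ) ≤ x := by linarith
  have hcl : (c + lam) ^ 2 ≤ 64 * x ^ 2 := by
    have h3 : c + lam ≤ 8 * x := by linarith
    have h4 : (c + lam) ^ 2 ≤ (8 * x) ^ 2 := by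
      apply pow_le_pow_left₀ (by linarith) h3
    have h5 : (8 * x) ^ 2 = 64 * x ^ 2 := by ring
    linarith
  have hkk : (k : ℝ) * k ≤ x ^ 2 := by
    rw [sq]
    exact mul_le_mul hkx hkx (by linarith) (by linarith)
  have hE1 : e * (c + lam) ^ 2 * (k * k) ≤ 1 := by
    calc e * (c + lam) ^ 2 * (k * k) ≤ e * (64 * x ^ 2) * x ^ 2 := by gcongr
      _ = e * (64 * x ^ 2 * x ^ 2) := by ring
      _ ≤ 1 := heB
  have hE2 : e * (c + lam) ^ 2 ≤ 1 := by
    have h3 : (1 : ℝ) ≤ k * k := one_le_mul_of_one_le_of_one_le hk1 hk1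
    calc e * (c + lam) ^ 2 = e * (c + lam) ^ 2 * 1 := by ring
      _ ≤ e * (c + lam) ^ 2 * (k * k) := by gcongr
      _ ≤ 1 := hE1
  -- simplify the core inequality
  have hlogQ : 1 ≤ Real.log Q := by
    have h3 : Real.exp 1 ≤ Q := by
      have := Real.exp_one_lt_d9
      linarith
    calc (1 : ℝ) = Real.log (Real.exp 1) := (Real.log_exp 1).symm
      _ ≤ Real.log Q := Real.log_le_log (Real.exp_pos 1) h3
  have hlogk : Real.log k + 1 ≤ L := by
    have h3 : Real.log k ≤ Real.log x := Real.log_le_log (by linarith) hkx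
    linarith
  rw [hlamsq] at hcore
  have h12 : lam / 8 * c ≤ c * (Real.log k + 1 + 3 * B) := by
    have h13 : lam / 8 * (c * 1) ≤ lam / 8 * (c * Real.log Q) := by gcongr
    have h14 : B * (c + c + e * (c + lam) ^ 2) ≤ B * (3 * c) := by
      gcongr
      linarith
    have h15 : lam / 8 * c ≤ c * Real.log k + 1 + B * (3 * c) := by linarith
    have h16 : c * (Real.log k + 1 + 3 * B) = c * Real.log k + c + B * (3 * c) := by ring
    linarith
  have h16 : lam ≤ 8 * (L + 3 * B) := by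
    have h17 : c * (lam / 8) ≤ c * (L + 3 * B) := by
      calc c * (lam / 8) = lam / 8 * c := by ring
        _ ≤ c * (Real.log k + 1 + 3 * B) := h12
        _ ≤ c * (L + 3 * B) := by gcongr
    have := le_of_mul_le_mul_left h17 hc0
    linarith
  -- bound B
  have hxt : 1 ≤ x ^ (2 * θ - 1) := Real.one_le_rpow hx1 (by linarith)
  have hBle : B ≤ 2 * C0 ^ 2 * x ^ (2 * θ - 1) := by
    rw [hB, div_le_iff₀ hx0]
    have h18 : x ^ (2 * θ - 1) * x = x ^ θ * x ^ θ := by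
      nth_rewrite 2 [← Real.rpow_one x]
      rw [← Real.rpow_add hx0, ← Real.rpow_add hx0]
      congr 1
      ring
    calc 2 * (k : ℝ) * k ≤ 2 * (C0 * x ^ θ) * (C0 * x ^ θ) := by gcongr
      _ = 2 * C0 ^ 2 * (x ^ θ * x ^ θ) := by ring
      _ = 2 * C0 ^ 2 * x ^ (2 * θ - 1) * x := by rw [← h18]; ring
  -- final contradiction
  have h19 : x ^ (β / 2) ≤ 16 * (1 + 6 * C0 ^ 2) * (L ^ 2 * x ^ (2 * θ - 1)) := by
    have h20 : x ^ (β / 2) ≤ 2 * L * lam := by
      have h21 : (x ^ (β / 2)) ^ 2 ≤ (2 * L * lam) ^ 2 := by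
        have h22 : (x ^ (β / 2)) ^ 2 = x ^ β := by
          rw [← Real.rpow_natCast, ← Real.rpow_mul hx0.le]
          congr 1
          push_cast
          ring
        rw [h22]
        calc x ^ β ≤ 4 * L * c := hcge
          _ ≤ 4 * L ^ 2 * c := by
            have : L ≤ L ^ 2 := by
              rw [sq]
              exact le_mul_of_one_le_left (by linarith) hL1
            gcongr
          _ = (2 * L * lam) ^ 2 := by rw [← hlamsq]; ring
      exact le_of_sq_le_sq (by simpa using h21) (by positivity)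
    have h23 : L + 3 * B ≤ L * ((1 + 6 * C0 ^ 2) * x ^ (2 * θ - 1)) := by
      have h24 : L ≤ L * x ^ (2 * θ - 1) := le_mul_of_one_le_right (by linarith) hxt
      have h25 : 6 * C0 ^ 2 * x ^ (2 * θ - 1) ≤ L * (6 * C0 ^ 2 * x ^ (2 * θ - 1)) :=
        le_mul_of_one_le_left (by positivity) hL1
      have h26 : L * ((1 + 6 * C0 ^ 2) * x ^ (2 * θ - 1)) =
        L * x ^ (2 * θ - 1) + L * (6 * C0 ^ 2 * x ^ (2 * θ - 1)) := by ring
      rw [h26]
      linarith
    calc x ^ (β / 2) ≤ 2 * L * lam := h20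
      _ ≤ 2 * L * (8 * (L + 3 * B)) := by gcongr
      _ ≤ 2 * L * (8 * (L * ((1 + 6 * C0 ^ 2) * x ^ (2 * θ - 1)))) := by gcongr
      _ = 16 * (1 + 6 * C0 ^ 2) * (L ^ 2 * x ^ (2 * θ - 1)) := by ring
  have h26 : L ^ 2 ≤ x ^ (a / 2) := by
    calc L ^ 2 ≤ (x ^ (a / 4)) ^ 2 := by gcongr
      _ = x ^ (a / 2) := by
        rw [← Real.rpow_natCast, ← Real.rpow_mul hx0.le]
        congr 1
        push_cast
        ring
  have h27 : x ^ (β / 2) = x ^ (a / 2) * (x ^ (a / 2) * x ^ (2 * θ - 1)) := by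
    rw [← Real.rpow_add hx0, ← Real.rpow_add hx0]
    congr 1
    rw [ha, hβ]
    ring
  rw [h27] at h19
  have h28 : 0 < x ^ (a / 2) * x ^ (2 * θ - 1) := by positivity
  have h29 : x ^ (a / 2) * (x ^ (a / 2) * x ^ (2 * θ - 1)) ≤
      16 * (1 + 6 * C0 ^ 2) * (x ^ (a / 2) * x ^ (2 * θ - 1)) := by
    refine h19.trans ?_
    gcongr
  have h30 := le_of_mul_le_mul_right h29 h28
  linarith

end Pool.Agent.Helper108.KN.Scale
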