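import Mathlib
import Pool.Agent.Helper108.KN.Scale

set_option autoImplicit false
set_option maxHeartbeats 4000000

namespace Pool.Agent.Helper108.KN.Final

open Filter Pool.Agent.Helper108.KN Pool.Agent.Helper108.KN.Scale
open Pool.Agent.Helper108.KN.Primes

theorem eventually_reversed (θ : ℝ) (h1 : 1 / 2 ≤ θ) (h2 : θ < 5 / 9) :
    ∃ r : ℕ, ∀ᶠ N : ℕ in atTop, ∃ n k : ℕ, N ≤ n ∧ n ≤ (r + 1) * N ∧ (n : ℝ) ^ θ < k ∧ k < n ∧
      blockLcm n k < blockLcm (n - k) k := by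
  set a : ℝ := (5 - 9 * θ) / 8 with ha
  set β : ℝ := (7 * θ - 3) / 4 with hβ
  have ha0 : 0 < a := by rw [ha]; linarith
  have hβ0 : 0 < β := by rw [hβ]; linarith
  obtain ⟨r, hr⟩ := exists_nat_ge (5 / (4 * a))
  have hr' : 5 ≤ 4 * a * r := by
    rw [div_le_iff₀ (by positivity)] at hr
    linarith
  refine ⟨r, ?_⟩
  set C0 : ℝ := r + 4 with hC0
  have hC00 : 0 < C0 := by positivity
  have hcast := tendsto_natCast_atTop_atTop (R := ℝ)
  -- real eventual facts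
  have e1 : ∀ᶠ x : ℝ in atTop, 6 ≤ x ^ β := (tendsto_rpow_atTop hβ0).eventually_ge_atTop 6
  have e2 : ∀ᶠ x : ℝ in atTop, C0 * x ^ θ ≤ x / 2 := by
    filter_upwards [(tendsto_rpow_atTop (by linarith : 0 < 1 - θ)).eventually_ge_atTop (2 * C0),
      eventually_gt_atTop 0] with x hx hx0
    have h3 : x ^ θ * x ^ (1 - θ) = x := by
      rw [← Real.rpow_add hx0]
      norm_num
    have h4 : 0 < x ^ θ := Real.rpow_pos_of_pos hx0 _
    have h5 : x ^ θ * (2 * C0) ≤ x ^ θ * x ^ (1 - θ) := mul_le_mul_of_nonneg_left hx h4.le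
    rw [h3] at h5
    linarith
  have e3 : ∀ᶠ x : ℝ in atTop, 4 * x ^ β ≤ x ^ θ := by
    filter_upwards [(tendsto_rpow_atTop (by rw [hβ]; linarith : 0 < θ - β)).eventually_ge_atTop 4,
      eventually_gt_atTop 0] with x hx hx0
    have h3 : x ^ β * x ^ (θ - β) = x ^ θ := by
      rw [← Real.rpow_add hx0]
      congr 1
      ring
    have h4 : 0 < x ^ β := Real.rpow_pos_of_pos hx0 _
    have h5 : x ^ β * 4 ≤ x ^ β * x ^ (θ - β) := mul_le_mul_of_nonneg_left hx h4.le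
    rw [h3] at h5
    linarith
  have e4 : ∀ᶠ x : ℝ in atTop, Real.log (4 * x) ≤ x ^ (a / 4) := by
    have hl := (isLittleO_log_rpow_atTop (by positivity : 0 < a / 4)).bound
      (by norm_num : (0 : ℝ) < 1 / 2)
    filter_upwards [hl, (tendsto_rpow_atTop (by positivity : 0 < a / 4)).eventually_ge_atTop
      (2 * Real.log 4), eventually_ge_atTop 1] with x hx1 hx2 hx3
    have hx0 : 0 < x := by linarith
    rw [Real.norm_of_nonneg (Real.log_nonneg hx3), Real.norm_of_nonneg (by positivity)] at hx1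
    rw [Real.log_mul (by norm_num) hx0.ne']
    linarith
  have e5 : ∀ᶠ x : ℝ in atTop, 16 * (1 + 6 * C0 ^ 2) < x ^ (a / 2) :=
    (tendsto_rpow_atTop (by positivity : 0 < a / 2)).eventually_gt_atTop _
  have e6 : ∀ᶠ x : ℝ in atTop, 128 * (16 * C0) ^ r ≤ x := eventually_ge_atTop _
  have e7 : ∀ᶠ x : ℝ in atTop, 4 ≤ x := eventually_ge_atTop _
  have e8 : ∀ᶠ N : ℕ in atTop, ((⌊(N : ℝ) ^ β⌋₊ : ℕ) : ℝ) ≤
      (PQ ⌊(N : ℝ) ^ β⌋₊).card * Real.log (4 * ⌊(N : ℝ) ^ β⌋₊ : ℕ) := by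
    have ht : Tendsto (fun N : ℕ => ⌊(N : ℝ) ^ β⌋₊) atTop atTop :=
      tendsto_nat_floor_atTop.comp ((tendsto_rpow_atTop hβ0).comp hcast)
    exact ht.eventually card_PQ_ge
  filter_upwards [hcast.eventually e1, hcast.eventually e2, hcast.eventually e3,
    hcast.eventually e4, hcast.eventually e5, hcast.eventually e6, hcast.eventually e7, e8]
    with N f1 f2 f3 f4 f5 f6 f7 f8
  exact scale θ a β C0 r N h1 h2 ha hβ hC0 hr' f1 f2 f3 f4 f5 f6 f7 f8

/-- `k(n) > n^θ` infinitely often, for each `θ < 5/9`. -/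
theorem kmax_large (θ : ℝ) (hθ : θ < 5 / 9) (N₀ : ℕ) :
    ∃ n : ℕ, N₀ ≤ n ∧ (n : ℝ) ^ θ < (kmax n : ℝ) := by
  obtain ⟨r, hr⟩ := eventually_reversed (max θ (1 / 2)) (le_max_right _ _)
    (max_lt hθ (by norm_num))
  obtain ⟨N, hN, hN1⟩ := (hr.and (eventually_ge_atTop (max N₀ 1))).exists
  obtain ⟨n, k, h1, h2, h3, h4, h5⟩ := hN
  have hn1 : 1 ≤ n := ((le_max_right _ _).trans hN1).trans h1
  refine ⟨n, ((le_max_left _ _).trans hN1).trans h1, ?_⟩
  have hn1' : (1 : ℝ) ≤ n := by exact_mod_cast hn1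
  have h6 : (n : ℝ) ^ θ ≤ (n : ℝ) ^ (max θ (1 / 2)) :=
    Real.rpow_le_rpow_of_exponent_le hn1' (le_max_left _ _)
  have hk1 : 1 ≤ k := by
    have : (0 : ℝ) < k := lt_of_le_of_lt (by positivity) h3
    exact_mod_cast this
  have h7 : (k : ℝ) ≤ kmax n := by exact_mod_cast le_kmax hk1 h4 h5
  linarith

end Pool.Agent.Helper108.KN.Final
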